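import Pool.Agent.MP_3312ae_al.HR.Spec

/-! Interface between the ring side (helper23) and the group side (helper13) of block E. -/

set_option autoImplicit false

namespace Pool.Agent.MP_3312ae_al.HR

/-- Class lemma: a normal subgroup generated by `r` values of a word `w` from the last term of the
lower central series of the box quotient, of order dividing `p` there, has `(p, r)`-bounded class. -/
def ClassLemma : Prop :=
  ∀ (p : ℕ) [Fact p.Prime] (r : ℕ), ∃ s : ℕ, ∀ (H : Type) [Group H] [Finite H], IsPGroup p H →
    ∀ (N : Subgroup H) [N.Normal] (t : Fin 8 → H) (K : Subgroup (FreeGroup (Fin 8))) (m : ℕ)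
      (w : FreeGroup (Fin 8)), Box N t K →
      (⊤ : Subgroup (FreeGroup (Fin 8))).lowerCentralSeries (m + 1) ≤ K →
      w ∈ (⊤ : Subgroup (FreeGroup (Fin 8))).lowerCentralSeries m → w ^ p ∈ K →
      ∀ n : Fin r → Fin 8 → H, (∀ j i, n j i ∈ N) → ∀ L : Subgroup H, L.Normal →
      L = Subgroup.closure (Set.range fun j => FreeGroup.lift (fun i => t i * n j i) w) →
      L.lowerCentralSeries s = ⊥

end Pool.Agent.MP_3312ae_al.HR
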