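import Pool.Agent.MP_3312ae_al.HR.E.Fox
import Pool.Agent.MP_3312ae_al.HR.E.Spec2
import Pool.Agent.MP_3312ae_al.HR.D.KZ

/-! The class lemma of block E. -/

set_option autoImplicit false

namespace Pool.Agent.MP_3312ae_al.HR

open E
open scoped commutatorElement

/-- A normal subgroup of a nilpotent group that centralises all abelian normal subgroups it
contains is abelian. -/
theorem E.comm_of_centralizes {H : Type} [Group H] [Group.IsNilpotent H] (G : Subgroup H)
    [hG : G.Normal] (h : ∀ A : Subgroup H, A.Normal → A ≤ G → (∀ a ∈ A, ∀ b ∈ A, a * b = b * a) →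
      ∀ g ∈ G, ∀ a ∈ A, g * a = a * g) : ∀ a ∈ G, ∀ b ∈ G, a * b = b * a := by
  obtain ⟨n, hn⟩ := Group.IsNilpotent.nilpotent H
  let Z : Subgroup H := G ⊓ Subgroup.centralizer (G : Set H)
  have hZ : Z.Normal := inferInstance
  have key : ∀ k, ∀ x ∈ G, x ∈ Subgroup.upperCentralSeries H k → ∀ g ∈ G, g * x = x * g := by
    intro k
    induction k with
    | zero =>
      intro x _ hx g _
      rw [Subgroup.upperCentralSeries_zero, Subgroup.mem_bot] at hx
      simp [hx]
    | succ k ih =>
      intro x hx hx'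
      let A := Subgroup.closure (insert x (Z : Set H))
      have hAG : A ≤ G := by
        rw [Subgroup.closure_le]
        rintro y (rfl | hy)
        · exact hx
        · exact hy.1
      have hZA : ∀ y ∈ Z, y ∈ A := fun y hy => Subgroup.subset_closure (Or.inr hy)
      have hxA : x ∈ A := Subgroup.subset_closure (Or.inl rfl)
      have hA : A.Normal := ⟨fun a ha g => by
        have : A ≤ A.comap (MulAut.conj g).toMonoidHom := by
          rw [Subgroup.closure_le]
          rintro y (rfl | hy)
          · have h1 : ⁅y, g⁆ ∈ Z := by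
              have h2 : ⁅y, g⁆ ∈ G := by
                rw [commutatorElement_def, mul_assoc, mul_assoc, ← mul_assoc g]
                exact G.mul_mem hx (hG.conj_mem _ (G.inv_mem hx) g)
              exact ⟨h2, ih _ h2 (Subgroup.mem_upperCentralSeries_succ_iff.1 hx' g)⟩
            have e : g * y * g⁻¹ = ⁅y, g⁆⁻¹ * y := by rw [commutatorElement_def]; group
            show g * y * g⁻¹ ∈ A
            rw [e]
            exact A.mul_mem (A.inv_mem (hZA _ h1)) hxA
          · exact hZA _ (hZ.conj_mem _ hy g)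
        exact this ha⟩
      have hc : ∀ a ∈ A, ∀ b ∈ A, a * b = b * a := by
        have h1 : A ≤ Subgroup.centralizer (insert x (Z : Set H)) := by
          rw [Subgroup.closure_le]
          rintro y (rfl | hy) z (rfl | hz)
          · rfl
          · exact (hz.2 y hx).symm
          · exact hy.2 z hx
          · exact hy.2 z hz.1
        have h2 : A ≤ Subgroup.centralizer (A : Set H) := by
          rw [Subgroup.closure_le]
          intro y hy a ha
          exact (h1 ha y hy).symm
        exact fun a ha b hb => h2 hb a ha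
      exact fun g hg => h A hA hAG hc g hg x hxA
  exact fun a ha b hb => key n b hb (hn ▸ Subgroup.mem_top b) a ha

theorem classLemma : ClassLemma := by
  intro p _ r
  obtain ⟨s, hs⟩ := ring_class kzAssoc p r
  refine ⟨s + 1 + s, fun H _ _ hH N hN t K m w hB hK hw hwp n hn L hL hLe => ?_⟩
  classical
  have := hH.isNilpotent
  let u : Fin r → Fin 8 → H := fun j i => t i * n j i
  let c : Fin r → H := fun j => FreeGroup.lift (u j) w
  have hLc : L = Subgroup.closure (Set.range c) := hLe
  have hbox : ∀ v : Fin 8 → H, (∀ z, (t z)⁻¹ * v z ∈ N) → ∀ x ∈ K, FreeGroup.lift v x = 1 := by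
    intro v hv x hx
    simpa using hB _ hv x hx
  have hmk : ∀ j, (QuotientGroup.mk' N).comp (FreeGroup.lift (u j)) =
      (QuotientGroup.mk' N).comp (FreeGroup.lift t) := fun j => FreeGroup.ext_hom _ _ fun z => by
    simp [u, hn j z]
  have hc : ∀ i j, (c i)⁻¹ * c j ∈ N := fun i j => by
    rw [← QuotientGroup.eq]
    exact (DFunLike.congr_fun (hmk i) w).trans (DFunLike.congr_fun (hmk j) w).symm
  have hLN : ⁅L, L⁆ ≤ N := by
    have h1 : ∀ x ∈ L, (x : H ⧸ N) ∈ Subgroup.zpowers ((FreeGroup.lift t w : H) : H ⧸ N) := by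
      have : L ≤ (Subgroup.zpowers ((FreeGroup.lift t w : H) : H ⧸ N)).comap
          (QuotientGroup.mk' N) := by
        rw [hLc, Subgroup.closure_le]
        rintro _ ⟨j, rfl⟩
        exact ⟨1, (zpow_one _).trans (DFunLike.congr_fun (hmk j) w).symm⟩
      exact fun x hx => this hx
    rw [Subgroup.commutator_le]
    intro a ha b hb
    obtain ⟨i, hi⟩ := h1 a ha
    obtain ⟨j, hj⟩ := h1 b hb
    rw [← QuotientGroup.eq_one_iff, ← QuotientGroup.mk'_apply, map_commutatorElement,
      commutatorElement_eq_one_iff_mul_comm, QuotientGroup.mk'_apply, QuotientGroup.mk'_apply,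
      ← hi, ← hj]
    exact zpow_mul_comm _ _ _
  have act : ∀ (V : Type) [AddCommGroup V] (S : Sec H V), (∀ v, S.j v ∈ N) →
      ∀ W : List H, (∀ k ∈ W, k ∈ L) → W.length = s → (W.map fun h => S.ρ h - 1).prod = 0 := by
    intro V _ S hS W hW hl
    obtain ⟨N0, hN0⟩ := S.long_zero
    refine hs H _ S.ρ N u c N0 (m + 1) (hLc ▸ hL) (fun j => ?_) hc hN0 (fun i y0 v hv zs hz => ?_)
      (fun i M => free_TF S.ρ M (u i) m hw) W (hLc ▸ hW) hl
    · rw [← map_pow]
      exact hB _ (hn j) _ hwp
    · have h1 : ∀ v : Fin 8 → H, (∀ z, (t z)⁻¹ * v z ∈ N) → cG y0 v zs = 1 := fun v hv => by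
        rw [cG_lift]
        exact hbox v hv _ (hK (hz ▸ cG_lcs y0 FreeGroup.of zs))
      have h2 : ∀ z, (t z)⁻¹ * v z ∈ N := fun z => by
        have e : (t z)⁻¹ * v z = (t z)⁻¹ * (v z * (u i z)⁻¹) * (t z)⁻¹⁻¹ * n i z := by
          simp only [u]; group
        rw [e]
        exact N.mul_mem (hN.conj_mem _ (hv z) _) (hn i z)
      refine ⟨by rw [h1 v h2, map_one], LinearMap.ext fun a => S.j_inj ?_⟩
      have h3 := S.fox y0 v a zs
      rw [h1 v h2, h1 _ fun z => ?_, mul_one] at h3
      · rw [← h3, LinearMap.zero_apply, S.j_zero]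
      · by_cases e : z = y0
        · subst e
          have e : (t z)⁻¹ * (S.j a * v z) = (t z)⁻¹ * S.j a * (t z)⁻¹⁻¹ * ((t z)⁻¹ * v z) := by
            group
          rw [Function.update_self, e]
          exact N.mul_mem (hN.conj_mem _ (hS a) _) (h2 z)
        · rw [Function.update_of_ne e]
          exact h2 z
  have hGN : L.lowerCentralSeries (s + 1) ≤ N :=
    (L.lowerCentralSeries_antitone (show 1 ≤ s + 1 by omega)).trans hLN
  have hcomm := E.comm_of_centralizes (L.lowerCentralSeries (s + 1)) fun A hA hAG hAc g hg a ha => by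
    obtain ⟨V, _, S, hS⟩ := exists_sec A hAc
    have h1 := act V S fun v => hGN (hAG ((hS _).2 ⟨v, rfl⟩))
    have h2 := lcs_TF (ρ := S.ρ) (M := ⊥) (t := fun z : L => (z : H)) (MonoidHom.id H) L
      (fun g hg => t_sub (t := fun z : L => (z : H)) ⟨g, hg⟩) (s + 1) g hg
    have h3 : S.ρ g - 1 = 0 := TF_bot (s := s) (fun W hW => by
      have := h1 (W.map fun z : L => (z : H)) (fun k hk => by
        obtain ⟨z, _, rfl⟩ := List.mem_map.1 hk
        exact z.2) (by rwa [List.length_map])
      rwa [List.map_map] at this)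
      (Fil.mono (by omega) h2)
    obtain ⟨v, rfl⟩ := (hS a).1 ha
    have h4 := S.j_comm g v
    rw [h3, LinearMap.zero_apply, S.j_zero] at h4
    exact commutatorElement_eq_one_iff_mul_comm.1 h4.symm
  obtain ⟨V, _, S, hS⟩ := exists_sec (L.lowerCentralSeries (s + 1)) hcomm
  refine S.lcs_bot L s (s + 1) fun x hx => ?_
  obtain ⟨v, rfl⟩ := (hS x).1 hx
  exact ⟨v, rfl, fun W h1 h2 => by
    rw [act V S (fun v => hGN ((hS _).2 ⟨v, rfl⟩)) W h1 h2, LinearMap.zero_apply]⟩

end Pool.Agent.MP_3312ae_al.HR
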