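import Pool.Agent.MP_3312ae_al.HR.E.Induct
import Pool.Agent.MP_3312ae_al.HR.E.Class
import Pool.Agent.MP_3312ae_al.HR.Asm.Exp

/-! Block E closed. -/

set_option autoImplicit false

namespace Pool.Agent.MP_3312ae_al.HR

theorem boxBound : BoxBound 8 := boxBound_of classLemma

theorem locFinExp : LocFinExp := locFinExp_of 8 boxBound

end Pool.Agent.MP_3312ae_al.HR
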