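import Pool.Agent.MP_3312ae_al.HR.E.Mod

/-! Abelian normal subgroups as modules; the Fox derivative; lower central series and words. -/

set_option autoImplicit false
set_option linter.unusedSectionVars false

namespace Pool.Agent.MP_3312ae_al.HR.E

open scoped commutatorElement

/-- An abelian normal subgroup of `H`, written additively, with the conjugation action. -/
structure Sec (H V : Type) [Group H] [AddCommGroup V] where
  j : V → H
  j_add : ∀ a b, j (a + b) = j a * j b
  j_inj : Function.Injective j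
  ρ : H →* Module.End ℤ V
  j_ρ : ∀ h v, j (ρ h v) = h * j v * h⁻¹

theorem exists_sec {H : Type} [Group H] (A : Subgroup H) [A.Normal]
    (hA : ∀ a ∈ A, ∀ b ∈ A, a * b = b * a) :
    ∃ (V : Type) (_ : AddCommGroup V) (S : Sec H V), ∀ x, x ∈ A ↔ ∃ v, S.j v = x := by
  let inst : CommGroup A :=
    { (inferInstance : Group A) with mul_comm := fun a b => Subtype.ext (hA _ a.2 _ b.2) }
  let f : H → Additive A →+ Additive A := fun h =>
    { toFun := fun v => Additive.ofMul (MulAut.conjNormal h v.toMul)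
      map_zero' := by simp
      map_add' := fun a b => by simp }
  refine ⟨Additive A, inferInstance,
    { j := fun v => (v.toMul : H)
      j_add := fun a b => rfl
      j_inj := fun a b h => Additive.toMul.injective (Subtype.ext h)
      ρ :=
        { toFun := fun h => (f h).toIntLinearMap
          map_one' := by ext v; simp [f]
          map_mul' := fun a b => by ext v; simp [f, mul_assoc] }
      j_ρ := fun h v => by simp [f] }, fun x => ⟨fun hx => ⟨Additive.ofMul ⟨x, hx⟩, rfl⟩, ?_⟩⟩
  rintro ⟨v, rfl⟩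
  exact v.toMul.2

namespace Sec

variable {H V : Type} [Group H] [AddCommGroup V] (S : Sec H V)

theorem j_zero : S.j 0 = 1 := by
  have := S.j_add 0 0
  rw [add_zero] at this
  exact mul_eq_left.1 this.symm

theorem j_neg (a : V) : S.j (-a) = (S.j a)⁻¹ := by
  have := S.j_add (-a) a
  rw [neg_add_cancel, j_zero] at this
  exact eq_inv_of_mul_eq_one_left this.symm

theorem j_sub (a b : V) : S.j (a - b) = S.j a * (S.j b)⁻¹ := by
  rw [sub_eq_add_neg, S.j_add, j_neg]

theorem j_comm (h : H) (v : V) : S.j ((S.ρ h - 1) v) = ⁅h, S.j v⁆ := by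
  rw [LinearMap.sub_apply, Module.End.one_apply, j_sub, S.j_ρ, commutatorElement_def]

theorem comm_j (a b : V) (x g : H) : ⁅S.j a * x, S.j b * g⁆ =
    S.j ((S.ρ x - S.ρ ⁅x, g⁆) b + (1 - S.ρ ⁅x, g⁆ * S.ρ g) a) * ⁅x, g⁆ := by
  have e : (S.ρ x - S.ρ ⁅x, g⁆) b + (1 - S.ρ ⁅x, g⁆ * S.ρ g) a =
      a + S.ρ x b - S.ρ (⁅x, g⁆ * g) a - S.ρ ⁅x, g⁆ b := by
    simp only [LinearMap.sub_apply, Module.End.one_apply, map_mul]
    abel
  rw [e, j_sub, j_sub, S.j_add, S.j_ρ, S.j_ρ, S.j_ρ]
  simp only [commutatorElement_def]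
  group

theorem fox {ι : Type} [DecidableEq ι] (y0 : ι) (u : ι → H) (v : V) (zs : List ι) :
    cG y0 (Function.update u y0 (S.j v * u y0)) zs = S.j (cD S.ρ y0 u zs v) * cG y0 u zs := by
  induction zs with
  | nil => simp [cG, cD]
  | cons z zs ih =>
    by_cases e : z = y0
    · subst e
      rw [cG, ih, Function.update_self, comm_j, cD, if_pos rfl, cG]
      rfl
    · rw [cG, ih, Function.update_of_ne e, ← one_mul (u z), ← S.j_zero, comm_j, cD, if_neg e, cG]
      simp

theorem long_zero [Group.IsNilpotent H] : ∃ N : ℕ, ∀ L : List H, L.length = N →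
    (L.map fun h => S.ρ h - 1).prod = 0 := by
  obtain ⟨N, hN⟩ := Subgroup.nilpotent_iff_lowerCentralSeries.1 ‹Group.IsNilpotent H›
  have key : ∀ (L : List H) (v : V), S.j ((L.map fun h => S.ρ h - 1).prod v) ∈
      (⊤ : Subgroup H).lowerCentralSeries L.length := by
    intro L v
    induction L with
    | nil => exact Subgroup.mem_top _
    | cons h L ih =>
      rw [List.map_cons, List.prod_cons, Module.End.mul_apply, j_comm, List.length_cons,
        Subgroup.lowerCentralSeries_succ, Subgroup.commutator_comm]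
      exact Subgroup.commutator_mem_commutator (Subgroup.mem_top _) ih
  refine ⟨N, fun L hL => LinearMap.ext fun v => S.j_inj ?_⟩
  have := key L v
  rw [hL, hN, Subgroup.mem_bot] at this
  rw [this, LinearMap.zero_apply, j_zero]

/-- If all products of length `n` kill the elements of a term of the lower central series, the
series stops `n` steps later. -/
theorem lcs_bot (L : Subgroup H) (n : ℕ) : ∀ a : ℕ, (∀ x ∈ L.lowerCentralSeries a, ∃ v, S.j v = x ∧
    ∀ W : List H, (∀ k ∈ W, k ∈ L) → W.length = n → (W.map fun h => S.ρ h - 1).prod v = 0) →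
    L.lowerCentralSeries (a + n) = ⊥ := by
  induction n with
  | zero =>
    intro a h
    refine eq_bot_iff.2 fun x hx => ?_
    obtain ⟨v, rfl, hv⟩ := h x hx
    have : v = 0 := by simpa using hv [] (by simp) rfl
    rw [this, j_zero]
    exact one_mem _
  | succ n ih =>
    intro a h
    rw [show a + (n + 1) = a + 1 + n by ring]
    refine ih (a + 1) fun x hx => ?_
    rw [Subgroup.mem_lowerCentralSeries_succ_iff] at hx
    induction hx using Subgroup.closure_induction with
    | mem x hx =>
      obtain ⟨y, hy, q, hq, rfl⟩ := hx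
      obtain ⟨v, rfl, hv⟩ := h y hy
      refine ⟨-((S.ρ q - 1) v), by rw [j_neg, j_comm, commutatorElement_inv], fun W hW hl => ?_⟩
      have := hv (W ++ [q]) (fun k hk => ?_) (by simp [hl])
      · rw [map_neg, neg_eq_zero]
        simpa using this
      · rcases List.mem_append.1 hk with hk | hk
        · exact hW k hk
        · rwa [List.mem_singleton.1 hk]
    | one => exact ⟨0, S.j_zero, fun _ _ _ => map_zero _⟩
    | mul x y _ _ hx hy =>
      obtain ⟨v, rfl, hv⟩ := hx
      obtain ⟨w, rfl, hw⟩ := hy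
      exact ⟨v + w, S.j_add _ _, fun W h1 h2 => by rw [map_add, hv W h1 h2, hw W h1 h2, add_zero]⟩
    | inv x _ hx =>
      obtain ⟨v, rfl, hv⟩ := hx
      exact ⟨-v, S.j_neg _, fun W h1 h2 => by rw [map_neg, hv W h1 h2, neg_zero]⟩

end Sec

section Lcs
variable {H R ι : Type} [Group H] [Finite H] [Ring R] [DecidableEq ι]

/-- The elements congruent to `1` modulo words with `k` letters. -/
def TG (ρ : H →* R) (M : Subgroup H) (t : ι → H) (k : ℕ) : Subgroup H where
  carrier := {g | ρ g - 1 ∈ TF ρ M t k}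
  mul_mem' {a b} ha hb := by
    refine Ctx.mem_eq (add_mem (Fil.mul' ha (mem0_of_sub hb) le_rfl) hb) ?_
    rw [map_mul]; noncomm_ring
  one_mem' := by simp
  inv_mem' ha := inv_sub ha

theorem lcs_TF {ρ : H →* R} {M : Subgroup H} {t : ι → H} {G : Type} [Group G] (f : G →* H)
    (P : Subgroup G) (h : ∀ g ∈ P, ρ (f g) - 1 ∈ TF ρ M t 1) (k : ℕ) :
    ∀ g ∈ P.lowerCentralSeries k, ρ (f g) - 1 ∈ TF ρ M t (k + 1) := by
  induction k with
  | zero => exact h
  | succ k ih =>
    have : P.lowerCentralSeries (k + 1) ≤ (TG ρ M t (k + 1 + 1)).comap f := by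
      rw [Subgroup.lowerCentralSeries_succ, Subgroup.commutator_le]
      intro a ha b hb
      rw [Subgroup.mem_comap, map_commutatorElement]
      exact comm_sub (ih a ha) (h b hb)
    exact fun g hg => this hg

theorem free_TF (ρ : H →* R) (M : Subgroup H) (t : ι → H) (k : ℕ) {w : FreeGroup ι}
    (hw : w ∈ (⊤ : Subgroup (FreeGroup ι)).lowerCentralSeries k) :
    ρ (FreeGroup.lift t w) - 1 ∈ TF ρ M t (k + 1) := by
  refine lcs_TF (FreeGroup.lift t) ⊤ (fun g _ => ?_) k w hw
  have : Subgroup.closure (Set.range FreeGroup.of) ≤ (TG ρ M t 1).comap (FreeGroup.lift t) := by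
    rw [Subgroup.closure_le]
    rintro _ ⟨z, rfl⟩
    show ρ (FreeGroup.lift t (FreeGroup.of z)) - 1 ∈ TF ρ M t 1
    rw [FreeGroup.lift_apply_of]
    exact t_sub z
  exact this (by rw [FreeGroup.closure_range_of]; trivial)

theorem len_ge {M : Subgroup H} (L : List (ι ⊕ M)) :
    (L.map (Sum.elim (fun _ => 1) fun _ => 0 : ι ⊕ M → ℕ)).sum ≤ L.length := by
  induction L with
  | nil => simp
  | cons l L ih =>
    rw [List.map_cons, List.sum_cons, List.length_cons]
    rcases l with z | ν <;> simp only [Sum.elim_inl, Sum.elim_inr] <;> omega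

theorem MF_bot {ρ : H →* R} {t : ι → H} {x : R} (hx : x ∈ MF ρ ⊥ t 1) : x = 0 := by
  refine AddSubgroup.mem_bot.1 ((AddSubgroup.closure_le _).2 ?_ hx)
  rintro _ ⟨L, hL, rfl⟩
  show _ = (0 : R)
  induction L with
  | nil => simp at hL
  | cons l L ih =>
    rw [List.map_cons, List.prod_cons]
    rcases l with z | ν
    · rw [ih (by simpa using hL), mul_zero]
    · rw [lval, Subgroup.mem_bot.1 ν.2, map_one, sub_self, zero_mul]

theorem TF_bot {ρ : H →* R} {t : ι → H} {s : ℕ}
    (h : ∀ L : List ι, L.length = s → (L.map fun z => ρ (t z) - 1).prod = 0) {x : R}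
    (hx : x ∈ TF ρ ⊥ t s) : x = 0 := by
  refine AddSubgroup.mem_bot.1 ((AddSubgroup.closure_le _).2 ?_ hx)
  rintro _ ⟨L, hL, rfl⟩
  exact MF_bot (long_word h 1 L (by have := len_ge L; omega))

theorem cG_lift (y0 : ι) (u : ι → H) (zs : List ι) :
    cG y0 u zs = FreeGroup.lift u (cG y0 FreeGroup.of zs) := by
  induction zs with
  | nil => simp [cG]
  | cons z zs ih => rw [cG, cG, map_commutatorElement, ih, FreeGroup.lift_apply_of]

theorem cG_lcs {G : Type} [Group G] (y0 : ι) (u : ι → G) (zs : List ι) :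
    cG y0 u zs ∈ (⊤ : Subgroup G).lowerCentralSeries zs.length := by
  induction zs with
  | nil => exact Subgroup.mem_top _
  | cons z zs ih =>
    rw [cG, List.length_cons, Subgroup.lowerCentralSeries_succ, Subgroup.commutator_comm]
    exact Subgroup.commutator_mem_commutator (Subgroup.mem_top _) ih

end Lcs

end Pool.Agent.MP_3312ae_al.HR.E
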