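import Mathlib

/-! Group lemmas for the induction in block E. -/

set_option autoImplicit false
set_option maxHeartbeats 400000

namespace Pool.Agent.MP_3312ae_al.HR.E

open Subgroup
open scoped commutatorElement

/-- A finite `p`-group of rank at most `R` that is generated by `C` is generated by `p ^ R`
elements of `C`. -/
theorem gen_of_rank {p : ℕ} [hp : Fact p.Prime] {G : Type} [Group G] [Finite G]
    (hG : IsPGroup p G) (C : Set G) (hC : closure C = ⊤) (c0 : G) (h0 : c0 ∈ C) (R : ℕ)
    (hR : Group.rank G ≤ R) :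
    ∃ c : Fin (p ^ R) → G, (∀ j, c j ∈ C) ∧ closure (Set.range c) = ⊤ := by
  classical
  obtain ⟨S, hS1, hS2⟩ := Group.rank_spec G
  let Z := Multiplicative (ZMod p)
  have hZ : Nat.card Z = p := by simp [Z]
  let ev : (G →* Z) → (S → Z) := fun χ s => χ s
  have hev : Function.Injective ev := by
    intro χ ψ h
    apply MonoidHom.eq_of_eqOn_dense hS2
    intro s hs
    exact congrFun h ⟨s, hs⟩
  have : Finite (G →* Z) := Finite.of_injective ev hev
  have hcard : Nat.card (G →* Z) ≤ Nat.card (Fin (p ^ R)) := by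
    refine (Nat.card_le_card_of_injective ev hev).trans ?_
    rw [Nat.card_fun, hZ, Nat.card_eq_fintype_card, Fintype.card_coe, hS1,
      Nat.card_eq_fintype_card, Fintype.card_fin]
    exact Nat.pow_le_pow_right hp.out.pos hR
  have := Fintype.ofFinite (G →* Z)
  obtain ⟨emb⟩ : Nonempty ((G →* Z) ↪ Fin (p ^ R)) := by
    apply Function.Embedding.nonempty_of_card_le
    simpa [Nat.card_eq_fintype_card] using hcard
  have hch : ∀ χ : G →* Z, ∃ c ∈ C, (χ ≠ 1 → χ c ≠ 1) := by
    intro χ
    by_cases h : χ = 1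
    · exact ⟨c0, h0, fun h' => (h' h).elim⟩
    · by_contra hcon
      push Not at hcon
      apply h
      apply MonoidHom.eq_of_eqOn_dense hC
      intro c hc
      exact (hcon c hc).2
  choose ch hch1 hch2 using hch
  refine ⟨fun j => ch (Function.invFun emb j), fun j => hch1 _, ?_⟩
  by_contra hne
  set P := closure (Set.range fun j => ch (Function.invFun emb j)) with hP
  obtain ⟨k, hk⟩ := IsPGroup.iff_card.mp hG
  obtain ⟨j, hj⟩ := IsPGroup.iff_card.mp (hG.to_subgroup P)
  have hlt : j < k := by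
    have h1 : Nat.card P < Nat.card G := by
      refine lt_of_le_of_ne P.card_le_card_group fun h => hne ?_
      exact P.eq_top_of_card_eq h
    rw [hj, hk] at h1
    exact (Nat.pow_lt_pow_iff_right hp.out.one_lt).mp h1
  obtain ⟨k, rfl⟩ : ∃ k', k = k' + 1 := ⟨k - 1, by omega⟩
  obtain ⟨M, hM, hPM⟩ := Sylow.exists_subgroup_card_pow_prime_le p (n := j) (m := k)
    (by rw [hk]; exact pow_dvd_pow p (Nat.le_succ k)) P hj (by omega)
  have hidx : M.index = p := by
    have := M.card_mul_index
    rw [hM, hk, pow_succ] at this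
    exact Nat.eq_of_mul_eq_mul_left (pow_pos hp.out.pos k) this
  have : M.Normal := by
    apply Subgroup.normal_of_index_eq_minFac_card
    rw [hidx, hk, hp.out.pow_minFac (Nat.succ_ne_zero k)]
  have hQ : Nat.card (G ⧸ M) = p := hidx
  let e : (G ⧸ M) ≃* Z := mulEquivOfPrimeCardEq hQ hZ
  let χ : G →* Z := e.toMonoidHom.comp (QuotientGroup.mk' M)
  have hker : ∀ g, χ g = 1 ↔ g ∈ M := by
    intro g
    simp [χ]
  have hχ : χ ≠ 1 := by
    intro h
    have : M = ⊤ := by
      rw [eq_top_iff]
      intro g _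
      rw [← hker, h]
      rfl
    rw [this, Subgroup.index_top] at hidx
    exact hp.out.one_lt.ne hidx
  apply hch2 χ hχ
  rw [hker]
  apply hPM
  apply Subgroup.subset_closure
  refine ⟨emb χ, ?_⟩
  simp only
  rw [Function.leftInverse_invFun emb.injective χ]

theorem pow_mem_of_closure {G : Type} [Group G] (B : Subgroup G) [B.Normal] (T : Set G) (p : ℕ)
    (hT : ∀ x ∈ T, x ^ p ∈ B) (hc : ∀ x ∈ closure T, ∀ y ∈ closure T, ⁅x, y⁆ ∈ B) :
    ∀ x ∈ closure T, x ^ p ∈ B := by
  intro x hx
  induction hx using closure_induction with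
  | mem x hx => exact hT x hx
  | one => simp
  | mul x y hx hy ihx ihy =>
    rw [← QuotientGroup.eq_one_iff] at ihx ihy ⊢
    have h : Commute (x : G ⧸ B) (y : G ⧸ B) := by
      rw [← commutatorElement_eq_one_iff_commute]
      have := hc x hx y hy
      rw [← QuotientGroup.eq_one_iff] at this
      simpa [commutatorElement_def] using this
    rw [QuotientGroup.mk_pow] at ihx ihy
    rw [QuotientGroup.mk_pow, QuotientGroup.mk_mul, h.mul_pow, ihx, ihy, one_mul]
  | inv x hx ih => rw [inv_pow]; exact B.inv_mem ih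

theorem comm_pow_central {Q : Type} [Group Q] (x g : Q) (h : Commute x ⁅x, g⁆) (n : ℕ) :
    ⁅x ^ n, g⁆ = ⁅x, g⁆ ^ n := by
  have h1 : g * x⁻¹ * g⁻¹ = x⁻¹ * ⁅x, g⁆ := by
    simp [commutatorElement_def, mul_assoc]
  have h2 : ⁅x ^ n, g⁆ = x ^ n * (g * x⁻¹ * g⁻¹) ^ n := by
    rw [conj_pow]
    simp [commutatorElement_def, mul_assoc]
  rw [h2, h1, h.inv_left.mul_pow]
  simp

/-- The lower central factors of a group generated by elements of order dividing `p` have exponent
dividing `p`. -/
theorem lcs_pow_top {G : Type} [Group G] (S : Set G) (hS : closure S = ⊤) (p : ℕ)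
    (hp : ∀ s ∈ S, s ^ p = 1) (k : ℕ) :
    ∀ x ∈ (⊤ : Subgroup G).lowerCentralSeries k,
      x ^ p ∈ (⊤ : Subgroup G).lowerCentralSeries (k + 1) := by
  induction k with
  | zero =>
    intro x _
    refine pow_mem_of_closure _ S p (fun s hs => by rw [hp s hs]; exact one_mem _)
      (fun x _ y _ => commutator_mem_commutator (mem_top x) (mem_top y)) x ?_
    rw [hS]; trivial
  | succ k ih =>
    intro x hx
    refine pow_mem_of_closure ((⊤ : Subgroup G).lowerCentralSeries (k + 1 + 1))
      {x | ∃ a ∈ (⊤ : Subgroup G).lowerCentralSeries k, ∃ g ∈ (⊤ : Subgroup G), ⁅a, g⁆ = x} p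
      ?_ (fun x hx y _ => commutator_mem_commutator hx (mem_top y)) x hx
    rintro _ ⟨a, ha, g, -, rfl⟩
    set B := (⊤ : Subgroup G).lowerCentralSeries (k + 1 + 1) with hB
    have h1 : ⁅a ^ p, g⁆ ∈ B := commutator_mem_commutator (ih a ha) (mem_top g)
    have h2 : ⁅⁅a, g⁆, a⁆ ∈ B :=
      commutator_mem_commutator (commutator_mem_commutator ha (mem_top g)) (mem_top a)
    rw [← QuotientGroup.eq_one_iff] at h1 h2 ⊢
    have h3 : Commute (a : G ⧸ B) ⁅(a : G ⧸ B), (g : G ⧸ B)⁆ := by
      apply Commute.symm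
      rw [← commutatorElement_eq_one_iff_commute]
      simpa only [commutatorElement_def, QuotientGroup.mk_mul, QuotientGroup.mk_inv] using h2
    have h4 := comm_pow_central _ _ h3 p
    have h5 : ((⁅a, g⁆ ^ p : G) : G ⧸ B) = ⁅(a : G ⧸ B), (g : G ⧸ B)⁆ ^ p := by
      simp [commutatorElement_def]
    rw [h5, ← h4]
    simpa [commutatorElement_def] using h1

/-- The same for a subgroup, computed in the ambient group. -/
theorem lcs_pow {G : Type} [Group G] (S : Set G) (p : ℕ) (hp : ∀ s ∈ S, s ^ p = 1) (k : ℕ) :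
    ∀ x ∈ (closure S).lowerCentralSeries k, x ^ p ∈ (closure S).lowerCentralSeries (k + 1) := by
  intro x hx
  rw [← top_subtype_lowerCentralSeries] at hx ⊢
  obtain ⟨y, hy, rfl⟩ := hx
  refine ⟨y ^ p, lcs_pow_top (((↑) : closure S → G) ⁻¹' S) (closure_closure_coe_preimage) p
    (fun s hs => Subtype.ext ?_) k y hy, by simp⟩
  simpa using hp s hs

theorem index_lcs_bound (p r k : ℕ) (hp : 0 < p) : ∃ B : ℕ, ∀ (G : Type) [Group G] [Finite G]
    (c : Fin r → G), (∀ j, c j ^ p = 1) → closure (Set.range c) = ⊤ →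
    ((⊤ : Subgroup G).lowerCentralSeries k).index ≤ B := by
  induction k with
  | zero => exact ⟨1, fun G _ _ c _ _ => by simp⟩
  | succ k ih =>
    obtain ⟨B, hB⟩ := ih
    refine ⟨p ^ (B * r) * B, fun G _ _ c hc hgen => ?_⟩
    classical
    set A := (⊤ : Subgroup G).lowerCentralSeries k with hA
    set A' := (⊤ : Subgroup G).lowerCentralSeries (k + 1) with hA'
    have hle : A' ≤ A := (⊤ : Subgroup G).lowerCentralSeries_antitone (Nat.le_succ k)
    rw [← Subgroup.relIndex_mul_index hle]
    refine Nat.mul_le_mul ?_ (hB G c hc hgen)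
    have hrk : Group.rank G ≤ r := by
      have : Group.rank G ≤ (Finset.univ.image c).card := by
        apply Group.rank_le
        simpa using hgen
      exact this.trans (Finset.card_image_le.trans (by simp))
    have hrkA : Group.rank A ≤ B * r :=
      A.rank_le_index_mul_rank.trans (Nat.mul_le_mul (hB G c hc hgen) hrk)
    let Q := A ⧸ A'.subgroupOf A
    let : CommGroup Q :=
      { (inferInstance : Group Q) with
        mul_comm := by
          intro x y
          obtain ⟨x, rfl⟩ := QuotientGroup.mk_surjective x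
          obtain ⟨y, rfl⟩ := QuotientGroup.mk_surjective y
          rw [← commutatorElement_eq_one_iff_mul_comm]
          have : ((⁅x, y⁆ : A) : Q) = 1 := by
            rw [QuotientGroup.eq_one_iff, mem_subgroupOf]
            exact commutator_mem_commutator x.2 (mem_top _)
          simpa [commutatorElement_def] using this }
    have hexp : ∀ x : Q, x ^ p = 1 := by
      intro x
      obtain ⟨x, rfl⟩ := QuotientGroup.mk_surjective x
      rw [← QuotientGroup.mk_pow, QuotientGroup.eq_one_iff, mem_subgroupOf]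
      exact lcs_pow_top _ hgen p (by rintro _ ⟨j, rfl⟩; exact hc j) k x x.2
    have hd := card_dvd_exponent_pow_rank' Q hexp
    have hrQ : Group.rank Q ≤ B * r :=
      (Group.rank_le_of_surjective (QuotientGroup.mk' _) (QuotientGroup.mk'_surjective _)).trans
        hrkA
    exact (Nat.le_of_dvd (pow_pos hp _) hd).trans (Nat.pow_le_pow_right hp hrQ)

/-- A nilpotent subgroup generated by `r` elements of order dividing `p` has bounded order. -/
theorem card_bound (p r s : ℕ) (hp : 0 < p) : ∃ B : ℕ, ∀ (H : Type) [Group H] [Finite H]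
    (c : Fin r → H), (∀ j, c j ^ p = 1) →
    (closure (Set.range c)).lowerCentralSeries s = ⊥ → Nat.card (closure (Set.range c)) ≤ B := by
  obtain ⟨B, hB⟩ := index_lcs_bound p r s hp
  refine ⟨B, fun H _ _ c hc hs => ?_⟩
  let c' : Fin r → closure (Set.range c) := fun j => ⟨c j, Subgroup.subset_closure ⟨j, rfl⟩⟩
  have hgen : closure (Set.range c') = ⊤ := by
    have : Set.range c' = ((↑) : closure (Set.range c) → H) ⁻¹' Set.range c := by
      ext x
      constructor
      · rintro ⟨j, rfl⟩; exact ⟨j, rfl⟩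
      · rintro ⟨j, hj⟩; exact ⟨j, Subtype.ext hj⟩
    rw [this]
    exact closure_closure_coe_preimage
  have h1 := hB _ c' (fun j => Subtype.ext (by simpa using hc j)) hgen
  rw [← top_subtype_lowerCentralSeries, Subgroup.map_eq_bot_iff_of_injective _
    (Subgroup.subtype_injective _)] at hs
  rwa [hs, Subgroup.index_bot] at h1

/-- Choice of the central word. -/
theorem exists_word {p : ℕ} [hp : Fact p.Prime] {F : Type} [Group F] (K : Subgroup F) [K.Normal]
    [K.FiniteIndex] (hK : IsPGroup p (F ⧸ K)) (hne : K ≠ ⊤) :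
    ∃ (m : ℕ) (w : F), (⊤ : Subgroup F).lowerCentralSeries (m + 1) ≤ K ∧
      w ∈ (⊤ : Subgroup F).lowerCentralSeries m ∧ w ∉ K ∧ w ^ p ∈ K := by
  classical
  have : Finite (F ⧸ K) := Subgroup.finite_quotient_of_finiteIndex
  have hnil := hK.isNilpotent
  obtain ⟨n, hn⟩ := (Subgroup.nilpotent_iff_lowerCentralSeries).mp hnil
  have hex : ∃ n, (⊤ : Subgroup F).lowerCentralSeries n ≤ K := by
    refine ⟨n, ?_⟩
    have := (⊤ : Subgroup F).map_lowerCentralSeries (QuotientGroup.mk' K) n
    rw [Subgroup.map_top_of_surjective _ (QuotientGroup.mk'_surjective K), hn,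
      Subgroup.map_eq_bot_iff, QuotientGroup.ker_mk'] at this
    exact this
  have h0 : Nat.find hex ≠ 0 := by
    intro h
    have := Nat.find_spec hex
    rw [h] at this
    exact hne (top_le_iff.mp this)
  obtain ⟨m, hm⟩ := Nat.exists_eq_succ_of_ne_zero h0
  have h1 : (⊤ : Subgroup F).lowerCentralSeries (m + 1) ≤ K := by
    have := Nat.find_spec hex
    rwa [hm] at this
  have h2 : ¬ (⊤ : Subgroup F).lowerCentralSeries m ≤ K := Nat.find_min hex (by omega)
  obtain ⟨w0, hw0, hw0K⟩ := SetLike.not_le_iff_exists.mp h2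
  have hex2 : ∃ k, w0 ^ p ^ k ∈ K := by
    obtain ⟨k, hk⟩ := hK (w0 : F ⧸ K)
    exact ⟨k, by rwa [← QuotientGroup.mk_pow, QuotientGroup.eq_one_iff] at hk⟩
  have h3 : Nat.find hex2 ≠ 0 := by
    intro h
    have := Nat.find_spec hex2
    rw [h] at this
    exact hw0K (by simpa using this)
  obtain ⟨j, hj⟩ := Nat.exists_eq_succ_of_ne_zero h3
  refine ⟨m, w0 ^ p ^ j, h1, pow_mem hw0 _, Nat.find_min hex2 (by omega), ?_⟩
  have := Nat.find_spec hex2
  rwa [hj, Nat.succ_eq_add_one, pow_succ, pow_mul] at this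

end Pool.Agent.MP_3312ae_al.HR.E
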