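import Pool.Agent.MP_3312ae_al.HR.E.Spec2
import Pool.Agent.MP_3312ae_al.HR.E.Induct1

/-! Block E: the class lemma implies the box bound, by induction on the index of the relators. -/

set_option autoImplicit false
set_option maxHeartbeats 400000

namespace Pool.Agent.MP_3312ae_al.HR.E

open Subgroup
open scoped commutatorElement

variable {H : Type} [Group H] {ι : Type}

/-- The values of `w` on the box. -/
def vals (N : Subgroup H) (t : ι → H) (w : FreeGroup ι) : Set H :=
  {x | ∃ n : ι → H, (∀ i, n i ∈ N) ∧ FreeGroup.lift (fun i => t i * n i) w = x}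

theorem conj_lift (g : H) (u : ι → H) (w : FreeGroup ι) :
    g * FreeGroup.lift u w * g⁻¹ = FreeGroup.lift (fun i => g * u i * g⁻¹) w := by
  have : ((MulAut.conj g).toMonoidHom.comp (FreeGroup.lift u)) =
      FreeGroup.lift (fun i => g * u i * g⁻¹) := by
    ext i
    simp
  rw [← this]
  simp

theorem vals_conj (N : Subgroup H) [hN : N.Normal] (t : ι → H) (Y : Set H) (hY : ∀ y ∈ Y, y ∈ N)
    (hgen : closure (Set.range t ∪ Y) = ⊤) (K : Subgroup (FreeGroup ι)) (hB : Box N t K)
    (w : FreeGroup ι) (hw : ∀ f, ⁅w, f⁆ ∈ K) (g : H) : ∀ x ∈ vals N t w, g * x * g⁻¹ ∈ vals N t w := by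
  rintro _ ⟨n, hn, rfl⟩
  set φ := FreeGroup.lift (fun i => t i * n i) with hφ
  have htop : N ⊔ φ.range = ⊤ := by
    rw [eq_top_iff, ← hgen, closure_le]
    rintro x (⟨i, rfl⟩ | hx)
    · have h1 : t i * n i ∈ N ⊔ φ.range :=
        mem_sup_right ⟨FreeGroup.of i, by simp [hφ]⟩
      have h2 : (n i)⁻¹ ∈ N ⊔ φ.range := mem_sup_left (N.inv_mem (hn i))
      simpa using mul_mem h1 h2
    · exact mem_sup_left (hY x hx)
  have hg : g ∈ N ⊔ φ.range := htop ▸ mem_top g
  obtain ⟨ν, hν, _, ⟨f, rfl⟩, rfl⟩ := mem_sup_of_normal_left.mp hg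
  have hc : φ f * φ w * (φ f)⁻¹ = φ w := by
    have := hB n hn _ (hw f)
    rw [map_commutatorElement, commutatorElement_eq_one_iff_mul_comm] at this
    rw [← hφ] at this
    rw [← this, mul_inv_cancel_right]
  have : ν * φ f * φ w * (ν * φ f)⁻¹ = ν * φ w * ν⁻¹ := by
    conv_rhs => rw [← hc]
    simp [mul_assoc]
  rw [this, hφ, conj_lift]
  refine ⟨fun i => (t i)⁻¹ * ν * t i * n i * ν⁻¹, fun i => ?_, ?_⟩
  · refine mul_mem (mul_mem ?_ (hn i)) (inv_mem hν)
    simpa using hN.conj_mem ν hν (t i)⁻¹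
  · congr 2
    funext i
    simp [mul_assoc]

theorem closure_normal_of_conj (C : Set H) (h : ∀ g : H, ∀ x ∈ C, g * x * g⁻¹ ∈ C) :
    (closure C).Normal := by
  constructor
  intro x hx g
  induction hx using closure_induction with
  | mem x hx => exact Subgroup.subset_closure (h g x hx)
  | one => simp
  | mul x y _ _ ihx ihy => simpa [mul_assoc] using mul_mem ihx ihy
  | inv x _ ih => simpa [mul_assoc] using inv_mem ih

theorem sup_zpowers_normal {F : Type} [Group F] (K : Subgroup F) [hK : K.Normal] (w : F)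
    (hw : ∀ f, ⁅w, f⁆ ∈ K) : (K ⊔ zpowers w).Normal := by
  have h : K ⊔ zpowers w = closure ((K : Set F) ∪ {x | ∃ k ∈ K, x = k * w}) := by
    apply le_antisymm
    · refine sup_le (fun x hx => Subgroup.subset_closure (Or.inl hx)) ?_
      rw [zpowers_le]
      exact Subgroup.subset_closure (Or.inr ⟨1, K.one_mem, by simp⟩)
    · rw [closure_le]
      rintro x (hx | ⟨k, hk, rfl⟩)
      · exact mem_sup_left hx
      · exact mul_mem (mem_sup_left hk) (mem_sup_right (mem_zpowers w))
  rw [h]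
  apply closure_normal_of_conj
  rintro g x (hx | ⟨k, hk, rfl⟩)
  · exact Or.inl (hK.conj_mem x hx g)
  · refine Or.inr ⟨g * k * g⁻¹ * ⁅w, g⁆⁻¹, mul_mem (hK.conj_mem k hk g) (inv_mem (hw g)), ?_⟩
    simp [commutatorElement_def, mul_assoc]

theorem box_quot (N : Subgroup H) (t : ι → H) (K : Subgroup (FreeGroup ι)) (hB : Box N t K)
    (w : FreeGroup ι) (L : Subgroup H) [L.Normal] (hL : vals N t w ⊆ L) :
    Box (N.map (QuotientGroup.mk' L)) (fun i => QuotientGroup.mk' L (t i)) (K ⊔ zpowers w) := by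
  intro n' hn'
  choose n hn hnn using hn'
  have h : FreeGroup.lift (fun i => QuotientGroup.mk' L (t i) * n' i) =
      (QuotientGroup.mk' L).comp (FreeGroup.lift (fun i => t i * n i)) := by
    ext i
    simp [← hnn i]
  rw [h]
  have : K ⊔ zpowers w ≤
      ((QuotientGroup.mk' L).comp (FreeGroup.lift (fun i => t i * n i))).ker := by
    refine sup_le (fun x hx => ?_) ?_
    · rw [MonoidHom.mem_ker, MonoidHom.comp_apply, hB n hn x hx, map_one]
    · rw [zpowers_le, MonoidHom.mem_ker, MonoidHom.comp_apply, QuotientGroup.mk'_apply,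
        QuotientGroup.eq_one_iff]
      exact hL ⟨n, hn, rfl⟩
  intro x hx
  exact this hx

theorem boxBound_aux (hC : ClassLemma) (p : ℕ) [hp : Fact p.Prime] (s : ℕ) (d : ℕ) :
    ∀ (K : Subgroup (FreeGroup (Fin 8))) [K.Normal], K.FiniteIndex → K.index = d →
    IsPGroup p (FreeGroup (Fin 8) ⧸ K) → ∃ B : ℕ,
    ∀ (H : Type) [Group H] [Finite H], IsPGroup p H → ∀ (N : Subgroup H) [N.Normal]
      (t : Fin 8 → H) (Y : Finset H), Y.card ≤ s → (∀ y ∈ Y, y ∈ N) →
      Subgroup.closure (Set.range t ∪ (Y : Set H)) = ⊤ → Box N t K → Nat.card H ≤ B := by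
  induction d using Nat.strong_induction_on with
  | _ d ih =>
  intro K _ hfi hd hK
  classical
  by_cases hne : K = ⊤
  · refine ⟨1, fun H _ _ _ N _ t Y _ hY hgen hB => ?_⟩
    have h1 : ∀ n : Fin 8 → H, (∀ i, n i ∈ N) → ∀ i, t i * n i = 1 := by
      intro n hn i
      simpa using hB n hn (FreeGroup.of i) (hne ▸ mem_top _)
    have ht : ∀ i, t i = 1 := fun i => by simpa using h1 (fun _ => 1) (fun _ => N.one_mem) i
    have hN : ∀ y ∈ N, y = 1 := fun y hy => by
      simpa [ht] using h1 (fun _ => y) (fun _ => hy) 0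
    have : (⊤ : Subgroup H) = ⊥ := by
      rw [← hgen, eq_bot_iff, closure_le]
      rintro x (⟨i, rfl⟩ | hx)
      · simp [ht]
      · simp [hN x (hY x hx)]
    rw [← Subgroup.card_top, this, Subgroup.card_bot]
  obtain ⟨m, w, hm, hw, hwK, hwp⟩ := exists_word K hK hne
  have hwc : ∀ f, ⁅w, f⁆ ∈ K := fun f => hm (commutator_mem_commutator hw (mem_top f))
  have hK'n := sup_zpowers_normal K w hwc
  have hle : K ≤ K ⊔ zpowers w := le_sup_left
  have hK'f : (K ⊔ zpowers w).FiniteIndex := Subgroup.finiteIndex_of_le hle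
  have hlt : (K ⊔ zpowers w).index < d := by
    rw [← hd]
    apply Subgroup.index_strictAnti
    refine lt_of_le_of_ne hle fun h => hwK ?_
    rw [h]
    exact mem_sup_right (mem_zpowers w)
  have hK'p : IsPGroup p (FreeGroup (Fin 8) ⧸ (K ⊔ zpowers w)) := by
    intro x
    obtain ⟨x, rfl⟩ := QuotientGroup.mk_surjective x
    obtain ⟨k, hk⟩ := hK (x : FreeGroup (Fin 8) ⧸ K)
    refine ⟨k, ?_⟩
    rw [← QuotientGroup.mk_pow, QuotientGroup.eq_one_iff] at hk ⊢
    exact hle hk
  obtain ⟨B', hB'⟩ := ih _ hlt (K ⊔ zpowers w) hK'f rfl hK'p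
  obtain ⟨c, hc⟩ := hC p (p ^ (B' * (8 + s)))
  obtain ⟨B'', hB''⟩ := card_bound p (p ^ (B' * (8 + s))) c hp.out.pos
  refine ⟨B'' * B', fun H _ _ hH N _ t Y hYs hY hgen hB => ?_⟩
  set L := closure (vals N t w) with hL
  have hLn : L.Normal :=
    closure_normal_of_conj _ (vals_conj N t Y (fun y hy => hY y hy) hgen K hB w hwc)
  have hidx : L.index ≤ B' := by
    refine hB' (H ⧸ L) (hH.to_quotient L) (N.map (QuotientGroup.mk' L))
      (fun i => QuotientGroup.mk' L (t i)) (Y.image (QuotientGroup.mk' L))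
      (Finset.card_image_le.trans hYs) ?_ ?_ (box_quot N t K hB w L Subgroup.subset_closure)
    · intro y hy
      obtain ⟨x, hx, rfl⟩ := Finset.mem_image.mp hy
      exact mem_map_of_mem _ (hY x hx)
    · have := congrArg (Subgroup.map (QuotientGroup.mk' L)) hgen
      rw [Subgroup.map_top_of_surjective _ (QuotientGroup.mk'_surjective L),
        MonoidHom.map_closure, Set.image_union, ← Set.range_comp] at this
      rw [Finset.coe_image]
      exact this
  have hrH : Group.rank H ≤ 8 + s := by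
    have : Group.rank H ≤ (Finset.univ.image t ∪ Y).card := by
      apply Group.rank_le
      simpa using hgen
    refine this.trans ((Finset.card_union_le _ _).trans (Nat.add_le_add ?_ hYs))
    exact Finset.card_image_le.trans (by simp)
  have hrL : Group.rank L ≤ B' * (8 + s) :=
    L.rank_le_index_mul_rank.trans (Nat.mul_le_mul hidx hrH)
  have h0 : FreeGroup.lift (fun i => t i * (fun _ => (1 : H)) i) w ∈ vals N t w :=
    ⟨fun _ => 1, fun _ => N.one_mem, rfl⟩
  obtain ⟨e, he, hegen⟩ := gen_of_rank (hH.to_subgroup L) (((↑) : L → H) ⁻¹' vals N t w)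
    closure_closure_coe_preimage ⟨_, Subgroup.subset_closure h0⟩ h0 _ hrL
  choose n hn hne' using he
  have hLeq : L = closure (Set.range fun j => FreeGroup.lift (fun i => t i * n j i) w) := by
    have := congrArg (Subgroup.map L.subtype) hegen
    rw [MonoidHom.map_closure, ← Set.range_comp, ← MonoidHom.range_eq_map, subtype_range] at this
    rw [← this]
    congr 2
    funext j
    exact (hne' j).symm
  have hcl := hc H hH N t K m w hB hm hw hwp n hn L hLn hLeq
  have hcard : Nat.card L ≤ B'' := by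
    rw [hLeq] at hcl ⊢
    refine hB'' H _ (fun j => ?_) hcl
    rw [← map_pow]
    exact hB (n j) (hn j) _ hwp
  rw [← L.card_mul_index]
  exact Nat.mul_le_mul hcard hidx

end Pool.Agent.MP_3312ae_al.HR.E

namespace Pool.Agent.MP_3312ae_al.HR

theorem boxBound_of (hC : ClassLemma) : BoxBound 8 :=
  fun p _ K _ hfi hK s => E.boxBound_aux hC p s K.index K hfi rfl hK

end Pool.Agent.MP_3312ae_al.HR
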