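import Pool.Agent.MP_3312ae_al.HR.Spec

/-! Filtered form of the associative Kostrikin-Zelmanov theorem (via the Rees ring). -/

set_option autoImplicit false

namespace Pool.Agent.MP_3312ae_al.HR.E

open Polynomial

/-- Ring commutators in the elements `e i` together with their degree. -/
inductive DComm {S : Type} [Ring S] {ι : Type} (e : ι → S) : ℕ → S → Prop
  | gen (i : ι) : DComm e 1 (e i)
  | br {a b : ℕ} {x y : S} : DComm e a x → DComm e b y → DComm e (a + b) (x * y - y * x)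

/-- A multiplicative descending filtration. -/
structure Filt (S : Type) [Ring S] where
  b : ℕ → AddSubgroup S
  one : (1 : S) ∈ b 0
  mul : ∀ {i j : ℕ} {x y : S}, x ∈ b i → y ∈ b j → x * y ∈ b (i + j)
  anti : ∀ {i j : ℕ} {x : S}, i ≤ j → x ∈ b j → x ∈ b i

namespace Filt

variable {S : Type} [Ring S] (F : Filt S)

theorem mul' {i j k : ℕ} {x y : S} (hx : x ∈ F.b i) (hy : y ∈ F.b j) (h : k ≤ i + j) :
    x * y ∈ F.b k := F.anti h (F.mul hx hy)

theorem coeff_mul_mem {f g : S[X]} {i j : ℕ} (hf : ∀ k, f.coeff k ∈ F.b (k + i))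
    (hg : ∀ k, g.coeff k ∈ F.b (k + j)) (k : ℕ) : (f * g).coeff k ∈ F.b (k + (i + j)) := by
  rw [coeff_mul]
  refine AddSubgroup.sum_mem _ fun x hx => F.mul' (hf _) (hg _) ?_
  have := Finset.HasAntidiagonal.mem_antidiagonal.1 hx
  omega

/-- The Rees ring. -/
def rees : Subring S[X] where
  carrier := {f | ∀ k, f.coeff k ∈ F.b (k + 0)}
  mul_mem' hf hg := F.coeff_mul_mem hf hg
  one_mem' k := by
    rw [coeff_one]
    split_ifs with h
    · subst h; exact F.one
    · exact zero_mem _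
  add_mem' hf hg k := by rw [coeff_add]; exact add_mem (hf k) (hg k)
  zero_mem' k := by simp
  neg_mem' hf k := by rw [coeff_neg]; exact neg_mem (hf k)

/-- The ideal defining the associated graded ring. -/
def ideal : Ideal F.rees where
  carrier := {f | ∀ k, (f : S[X]).coeff k ∈ F.b (k + 1)}
  add_mem' hf hg k := by
    rw [Subring.coe_add, coeff_add]; exact add_mem (hf k) (hg k)
  zero_mem' k := by simp
  smul_mem' c _ hf := F.coeff_mul_mem c.2 hf

instance : F.ideal.IsTwoSided := ⟨fun c hf => F.coeff_mul_mem hf c.2⟩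

/-- The homogeneous element `x X ^ k`. -/
noncomputable def hom (k : ℕ) (x : S) (h : x ∈ F.b k) : F.rees := ⟨monomial k x, fun j => by
  rw [coeff_monomial]
  split_ifs with e
  · subst e; exact h
  · exact zero_mem _⟩

theorem mk_eq_zero {f : F.rees} {k : ℕ} {x : S} (hf : (f : S[X]) = monomial k x) :
    Ideal.Quotient.mk F.ideal f = 0 ↔ x ∈ F.b (k + 1) := by
  rw [Ideal.Quotient.eq_zero_iff_mem]
  constructor
  · intro h
    have := h k
    rwa [hf, coeff_monomial, if_pos rfl] at this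
  · intro h j
    rw [hf, coeff_monomial]
    split_ifs with e
    · subst e; exact h
    · exact zero_mem _

end Filt

theorem filtered_kz (h : KZAssoc) (p : ℕ) [Fact p.Prime] (r : ℕ) : ∃ s : ℕ,
    ∀ (S : Type) [Ring S] (F : Filt S) (e : Fin r → S), (p : S) ∈ F.b 1 → (∀ i, e i ∈ F.b 1) →
      (∀ i, e i * e i ∈ F.b 3) → (∀ i k l, DComm e k l → e i * l * e i ∈ F.b (k + 3)) →
      ∀ w : List (Fin r), w.length = s → (w.map e).prod ∈ F.b (s + 1) := by
  obtain ⟨s, hs⟩ := h (ZMod p) r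
  refine ⟨s, fun S _ F e hp he h2 h3 w hw => ?_⟩
  let Q := F.rees ⧸ F.ideal
  have hpQ : (p : Q) = 0 := by
    rw [← map_natCast (Ideal.Quotient.mk F.ideal),
      F.mk_eq_zero (k := 0) (x := (p : S)) (by simp)]
    exact hp
  let _ : Algebra (ZMod p) Q := ZMod.algebra' Q (ringChar Q) ((ringChar.spec Q p).1 hpQ)
  let a : Fin r → Q := fun i => Ideal.Quotient.mk F.ideal (F.hom 1 (e i) (he i))
  have hc : ∀ l, IsRComm a l → ∃ k x, DComm e k x ∧ ∃ f : F.rees, (f : S[X]) = monomial k x ∧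
      l = Ideal.Quotient.mk F.ideal f := by
    intro l hl
    induction hl with
    | gen i => exact ⟨1, e i, DComm.gen i, _, rfl, rfl⟩
    | br _ _ ih₁ ih₂ =>
      obtain ⟨k₁, x₁, d₁, f₁, e₁, rfl⟩ := ih₁
      obtain ⟨k₂, x₂, d₂, f₂, e₂, rfl⟩ := ih₂
      refine ⟨k₁ + k₂, _, d₁.br d₂, f₁ * f₂ - f₂ * f₁, ?_, by simp⟩
      rw [AddSubgroupClass.coe_sub, Subring.coe_mul, Subring.coe_mul, e₁, e₂,
        monomial_mul_monomial, monomial_mul_monomial, add_comm k₂ k₁, map_sub]
  have hw' : ∀ w : List (Fin r), ∃ f : F.rees, (f : S[X]) = monomial w.length (w.map e).prod ∧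
      (w.map a).prod = Ideal.Quotient.mk F.ideal f := by
    intro w
    induction w with
    | nil => exact ⟨1, by simp, by simp⟩
    | cons i w ih =>
      obtain ⟨f, e₁, e₂⟩ := ih
      refine ⟨F.hom 1 (e i) (he i) * f, ?_, by simp [a, e₂]⟩
      rw [Subring.coe_mul, e₁, Filt.hom, monomial_mul_monomial]
      simp [add_comm]
  have h0 := hs Q a (fun i => ?_) (fun i l hl => ?_) w hw.ge
  · obtain ⟨f, e₁, e₂⟩ := hw' w
    rw [e₂, F.mk_eq_zero e₁, hw] at h0
    exact h0
  · rw [← map_mul, F.mk_eq_zero (k := 2) (x := e i * e i)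
      (by rw [Subring.coe_mul, Filt.hom, monomial_mul_monomial])]
    exact h2 i
  · obtain ⟨k, x, d, f, e₁, rfl⟩ := hc l hl
    rw [← map_mul, ← map_mul, F.mk_eq_zero (k := 1 + k + 1) (x := e i * x * e i)
      (by rw [Subring.coe_mul, Subring.coe_mul, e₁, Filt.hom, monomial_mul_monomial,
        monomial_mul_monomial])]
    exact F.anti (by omega) (h3 i k x d)

end Pool.Agent.MP_3312ae_al.HR.E
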