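import Pool.Agent.MP_3312ae_al.HR.E.Word6
import Pool.Agent.MP_3312ae_al.HR.E.Rees

/-! The ring form of the class lemma. -/

set_option autoImplicit false
set_option linter.unusedSectionVars false

namespace Pool.Agent.MP_3312ae_al.HR.E

open scoped commutatorElement

variable {H R : Type} [Group H] [Ring R] {r : ℕ}

/-- Right ideals spanned by the words of length `i` in the letters `ρ (c j) - 1`. -/
def EE (ρ : H →* R) (c : Fin r → H) : ℕ → AddSubgroup R
  | 0 => ⊤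
  | i + 1 => AddSubgroup.closure {y | ∃ j, ∃ x ∈ EE ρ c i, y = (ρ (c j) - 1) * x}

variable {ρ : H →* R} {c : Fin r → H}

theorem EE_gen {i : ℕ} (j : Fin r) {x : R} (hx : x ∈ EE ρ c i) :
    (ρ (c j) - 1) * x ∈ EE ρ c (i + 1) := AddSubgroup.subset_closure ⟨j, x, hx, rfl⟩

theorem EE_aux {i : ℕ} (h : ∀ g : H, ∀ x ∈ EE ρ c i, ρ g * x ∈ EE ρ c i) {k : H}
    (hk : k ∈ Subgroup.closure (Set.range c)) : ∀ x ∈ EE ρ c i, (ρ k - 1) * x ∈ EE ρ c (i + 1) := by
  induction hk using Subgroup.closure_induction with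
  | mem k hk => obtain ⟨j, rfl⟩ := hk; exact fun x hx => EE_gen j hx
  | one => intro x _; simp
  | mul a b _ _ ha hb =>
    intro x hx
    refine Ctx.mem_eq (add_mem (ha _ (h b x hx)) (hb x hx)) ?_
    rw [map_mul]; noncomm_ring
  | inv a _ ha =>
    intro x hx
    refine Ctx.mem_eq (neg_mem (ha _ (h a⁻¹ x hx))) ?_
    rw [← mul_assoc, sub_mul, ← map_mul, mul_inv_cancel, map_one]; noncomm_ring

theorem EE_rho (hL : (Subgroup.closure (Set.range c)).Normal) (i : ℕ) :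
    ∀ g : H, ∀ x ∈ EE ρ c i, ρ g * x ∈ EE ρ c i := by
  induction i with
  | zero => exact fun _ _ _ => AddSubgroup.mem_top _
  | succ i ih =>
    intro g x hx
    refine mul_closure hx ?_
    rintro _ ⟨j, y, hy, rfl⟩
    refine Ctx.mem_eq (EE_aux ih (hL.conj_mem _ (Subgroup.subset_closure ⟨j, rfl⟩) g) _
      (ih g y hy)) ?_
    rw [← mul_assoc, sub_mul, ← map_mul, inv_mul_cancel_right, map_mul]; noncomm_ring

theorem EE_L (hL : (Subgroup.closure (Set.range c)).Normal) {i : ℕ} {k : H}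
    (hk : k ∈ Subgroup.closure (Set.range c)) {x : R} (hx : x ∈ EE ρ c i) :
    (ρ k - 1) * x ∈ EE ρ c (i + 1) := EE_aux (EE_rho hL i) hk x hx

theorem EE_succ (hL : (Subgroup.closure (Set.range c)).Normal) (i : ℕ) :
    EE ρ c (i + 1) ≤ EE ρ c i := by
  refine (AddSubgroup.closure_le _).2 ?_
  rintro _ ⟨j, y, hy, rfl⟩
  rw [sub_mul, one_mul]
  exact sub_mem (EE_rho hL i _ _ hy) hy

theorem EE_anti (hL : (Subgroup.closure (Set.range c)).Normal) : Antitone (EE ρ c) :=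
  antitone_nat_of_succ_le (EE_succ hL)

theorem EE_p (hL : (Subgroup.closure (Set.range c)).Normal) {p : ℕ} (hp : ∀ j, c j ^ p = 1)
    {i : ℕ} {x : R} (hx : x ∈ EE ρ c (i + 1)) : (p : R) * x ∈ EE ρ c (i + 2) := by
  refine mul_closure hx ?_
  rintro _ ⟨j, y, hy, rfl⟩
  have h1 : (ρ (c j) - 1) * ∑ l ∈ Finset.range p, ρ (c j) ^ l = 0 := by
    rw [mul_geom_sum, ← map_pow, hp, map_one, sub_self]
  have h2 : ∑ l ∈ Finset.range p, (ρ (c j ^ l) - 1) * y ∈ EE ρ c (i + 1) :=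
    AddSubgroup.sum_mem _ fun l _ =>
      EE_L hL (pow_mem (Subgroup.subset_closure (Set.mem_range_self j)) l) hy
  refine Ctx.mem_eq (neg_mem (EE_gen j h2)) ?_
  rw [← Finset.sum_mul, Finset.sum_sub_distrib, ← mul_assoc, mul_sub]
  simp only [map_pow]
  rw [h1]
  simp only [Finset.sum_const, Finset.card_range, nsmul_eq_mul, mul_one]
  rw [← mul_assoc, Nat.cast_comm]
  noncomm_ring

/-- The filtration by the shift of the ideals `EE`. -/
def shiftF (ρ : H →* R) (c : Fin r → H) (hL : (Subgroup.closure (Set.range c)).Normal) :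
    Filt R where
  b k :=
    { carrier := {f | ∀ i, ∀ x ∈ EE ρ c (i + 1), f * x ∈ EE ρ c (i + 1 + k)}
      add_mem' := fun hf hg i x hx => by rw [add_mul]; exact add_mem (hf i x hx) (hg i x hx)
      zero_mem' := fun i x _ => by simp
      neg_mem' := fun hf i x hx => by rw [neg_mul]; exact neg_mem (hf i x hx) }
  one i x hx := by simpa using hx
  mul {a b f g} hf hg i x hx := by
    have h1 := hg i x hx
    rw [show i + 1 + b = (i + b) + 1 by ring] at h1
    have h2 := hf _ _ h1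
    rwa [show i + b + 1 + a = i + 1 + (a + b) by ring, ← mul_assoc] at h2
  anti hij hf i x hx := EE_anti hL (by omega) (hf i x hx)

/-- The elements of `N` acting trivially up to filtration `k`. -/
def Mk (ρ : H →* R) (F : Filt R) (h0 : ∀ g, ρ g ∈ F.b 0) (N : Subgroup H) (k : ℕ) :
    Subgroup H where
  carrier := {ν | ν ∈ N ∧ ρ ν - 1 ∈ F.b k}
  mul_mem' {a b} ha hb := ⟨N.mul_mem ha.1 hb.1, by
    refine Ctx.mem_eq (add_mem (F.mul' ha.2 (h0 b) le_rfl) hb.2) ?_
    rw [map_mul]; noncomm_ring⟩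
  one_mem' := ⟨N.one_mem, by simp⟩
  inv_mem' {a} ha := ⟨N.inv_mem ha.1, by
    refine Ctx.mem_eq (neg_mem (F.mul' ha.2 (h0 a⁻¹) le_rfl)) ?_
    rw [sub_mul, ← map_mul, mul_inv_cancel, map_one]; noncomm_ring⟩

theorem Mk_normal (F : Filt R) (h0 : ∀ g, ρ g ∈ F.b 0) (N : Subgroup H) [hN : N.Normal] (k : ℕ) :
    (Mk ρ F h0 N k).Normal := ⟨fun ν hν g => ⟨hN.conj_mem _ hν.1 g, by
  have e : ρ g * (ρ ν - 1) * ρ g⁻¹ = ρ (g * ν * g⁻¹) - 1 := by
    rw [mul_sub, sub_mul, mul_one, ← map_mul, ← map_mul, ← map_mul, mul_inv_cancel, map_one]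
  rw [← e]
  exact F.mul' (F.mul' (h0 g) hν.2 (le_of_eq (zero_add _).symm)) (h0 _) le_rfl⟩⟩

theorem MF_le (F : Filt R) (h0 : ∀ g, ρ g ∈ F.b 0) (N : Subgroup H) (k : ℕ) (t : Fin 8 → H)
    {n : ℕ} {x : R} (hx : x ∈ MF ρ (Mk ρ F h0 N k) t n) : x ∈ F.b (k * n) := by
  refine (AddSubgroup.closure_le _).2 ?_ hx
  rintro _ ⟨L, hL, rfl⟩
  refine F.anti (Nat.mul_le_mul_left k hL) ?_
  clear hL
  induction L with
  | nil => simpa using F.one
  | cons l L ih =>
    rw [List.map_cons, List.map_cons, List.prod_cons, List.sum_cons]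
    rcases l with z | ν
    · exact F.mul' (sub_mem (h0 _) F.one) ih (by simp)
    · exact F.mul' ν.2.2 ih (by simp [mul_add])

theorem comm_lift (F : Filt R) (h0 : ∀ g, ρ g ∈ F.b 0) (he : ∀ j, ρ (c j) - 1 ∈ F.b 1)
    (N : Subgroup H) [hN : N.Normal] (hc : ∀ i j, (c i)⁻¹ * c j ∈ N) {k : ℕ} {l : R}
    (hl : DComm (fun j => ρ (c j) - 1) k l) : 1 ≤ k ∧ ∃ g : H, ρ g - 1 ∈ F.b k ∧
      l - (ρ g - 1) ∈ F.b (k + 1) ∧ (g ∈ N ∨ ∃ j, g = c j ∧ k = 1) := by
  induction hl with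
  | gen j => exact ⟨le_rfl, c j, he j, by simp, Or.inr ⟨j, rfl, rfl⟩⟩
  | @br a b x y _ _ ih₁ ih₂ =>
    obtain ⟨ha, g, g1, g2, g3⟩ := ih₁
    obtain ⟨hb, h, h1, h2, h3⟩ := ih₂
    have hinv : ∀ {u : H} {n : ℕ}, ρ u - 1 ∈ F.b n → ρ u⁻¹ - 1 ∈ F.b n := fun {u n} hu => by
      refine Ctx.mem_eq (neg_mem (F.mul' hu (h0 u⁻¹) le_rfl)) ?_
      rw [sub_mul, ← map_mul, mul_inv_cancel, map_one]; noncomm_ring
    have hC : (ρ g - 1) * (ρ h - 1) - (ρ h - 1) * (ρ g - 1) ∈ F.b (a + b) :=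
      sub_mem (F.mul g1 h1) (F.mul' h1 g1 (by omega))
    have hy : y ∈ F.b b := Ctx.mem_eq (add_mem (F.anti (by omega) h2) h1) (by noncomm_ring)
    refine ⟨by omega, ⁅g, h⁆, ?_, ?_, Or.inl ?_⟩
    · rw [comm_sub_one]
      exact F.mul' (F.mul' hC (h0 _) le_rfl) (h0 _) le_rfl
    · have t1 := F.mul' (F.mul' hC (hinv g1) (k := a + b + 1) (by omega)) (h0 h⁻¹) le_rfl
      have t2 := F.mul' hC (hinv h1) (k := a + b + 1) (by omega)
      have t3 := F.mul' g2 hy (k := a + b + 1) (by omega)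
      have t4 := F.mul' g1 h2 (k := a + b + 1) (by omega)
      have t5 := F.mul' hy g2 (k := a + b + 1) (by omega)
      have t6 := F.mul' h2 g1 (k := a + b + 1) (by omega)
      refine Ctx.mem_eq (sub_mem (sub_mem (sub_mem (sub_mem (add_mem t3 t4) t5) t6) t1) t2) ?_
      rw [comm_sub_one]
      noncomm_ring
    · rw [commutatorElement_def]
      rcases g3 with g3 | ⟨i, rfl, _⟩
      · rw [mul_assoc, mul_assoc, ← mul_assoc h]
        exact N.mul_mem g3 (hN.conj_mem _ (N.inv_mem g3) h)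
      · rcases h3 with h3 | ⟨j, rfl, _⟩
        · exact N.mul_mem (hN.conj_mem _ h3 _) (N.inv_mem h3)
        · have e : c i * c j * (c i)⁻¹ * (c j)⁻¹ =
              c i * (c i * ((c i)⁻¹ * c j) * (c i)⁻¹ * ((c i)⁻¹ * c j)⁻¹) * (c i)⁻¹ := by group
          rw [e]
          exact hN.conj_mem _ (N.mul_mem (hN.conj_mem _ (hc i j) _) (N.inv_mem (hc i j))) _

theorem ring_class (hK : KZAssoc) (p : ℕ) [Fact p.Prime] (r : ℕ) : ∃ s : ℕ,
    ∀ (H R : Type) [Group H] [Finite H] [Ring R] (ρ : H →* R) (N : Subgroup H) [N.Normal]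
      (u : Fin r → Fin 8 → H) (c : Fin r → H) (N0 m : ℕ),
      (Subgroup.closure (Set.range c)).Normal → (∀ j, c j ^ p = 1) →
      (∀ i j, (c i)⁻¹ * c j ∈ N) →
      (∀ L : List H, L.length = N0 → (L.map fun h => ρ h - 1).prod = 0) →
      (∀ (i : Fin r) (y0 : Fin 8) (v : Fin 8 → H), (∀ z, v z * (u i z)⁻¹ ∈ N) →
        ∀ zs : List (Fin 8), zs.length = m → ρ (cG y0 v zs) = 1 ∧ cD ρ y0 v zs = 0) →
      (∀ (i : Fin r) (M : Subgroup H), ρ (c i) - 1 ∈ TF ρ M (u i) m) →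
      ∀ L : List H, (∀ k ∈ L, k ∈ Subgroup.closure (Set.range c)) → L.length = s →
        (L.map fun h => ρ h - 1).prod = 0 := by
  obtain ⟨s, hs⟩ := filtered_kz hK p r
  refine ⟨s + 1, fun H R _ _ _ ρ N _ u c N0 m hL hp hc hN hm hT L hL1 hL2 => ?_⟩
  let F := shiftF ρ c hL
  have h0 : ∀ g, ρ g ∈ F.b 0 := fun g i x hx => EE_rho hL _ g x hx
  have h1 : ∀ k ∈ Subgroup.closure (Set.range c), ρ k - 1 ∈ F.b 1 :=
    fun k hk i x hx => EE_L hL hk hx
  have hcL : ∀ j, c j ∈ Subgroup.closure (Set.range c) := fun j => Subgroup.subset_closure ⟨j, rfl⟩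
  have sand : ∀ i k y, y ∈ TF ρ (Mk ρ F h0 N k) (u i) 0 →
      (ρ (c i) - 1) * y * (ρ (c i) - 1) ∈ F.b (k * 4) := by
    intro i k y hy
    refine MF_le F h0 N k (u i) (word_eight ρ _ (Mk_normal F h0 N k) (u i) (N := N0) (m := m)
      (fun L' hL' => ?_) (fun y0 v hv => hm i y0 v fun z => (hv z).1) ?_)
    · simpa [Function.comp_def] using hN (L'.map (u i)) (by simpa using hL')
    · exact Fil.mul' (Fil.mul (hT i _) hy) (hT i _) (by omega)
  have hw := hs R F (fun j => ρ (c j) - 1) (fun i x hx => EE_p hL hp hx) (fun j => h1 _ (hcL j))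
    (fun i => by simpa using F.anti (by omega) (sand i 1 1 Fil.one)) (fun i k l hl => ?_)
  · have hE : ∀ n, ∀ x ∈ EE ρ c (n + 1), ∀ Q : AddSubgroup R, (∀ w : List (Fin r), w.length = n →
        ∀ y ∈ EE ρ c 1, (w.map fun j => ρ (c j) - 1).prod * y ∈ Q) → x ∈ Q := by
      intro n
      induction n with
      | zero => intro x hx Q h; simpa using h [] rfl x hx
      | succ n ih =>
        intro x hx Q h
        refine (AddSubgroup.closure_le _).2 ?_ hx
        rintro _ ⟨j, y, hy, rfl⟩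
        refine ih y hy (Q.comap (AddMonoidHom.mulLeft (ρ (c j) - 1))) fun w hw z hz => ?_
        simpa [mul_assoc] using h (j :: w) (by simp [hw]) z hz
    have hup : ∀ n, EE ρ c (s + 1 + n) ≤ EE ρ c (s + 1 + n + 1) := by
      intro n
      induction n with
      | zero =>
        intro x hx
        refine hE s x hx _ fun w hw' y hy => ?_
        have := hw w hw' 0 y hy
        rwa [show 0 + 1 + (s + 1) = s + 1 + 0 + 1 by ring] at this
      | succ n ih =>
        refine (AddSubgroup.closure_le _).2 ?_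
        rintro _ ⟨j, y, hy, rfl⟩
        exact EE_gen j (ih hy)
    have hall : ∀ n, EE ρ c (s + 1) ≤ EE ρ c (s + 1 + n) := by
      intro n
      induction n with
      | zero => exact le_rfl
      | succ n ih => exact ih.trans (hup n)
    have hbot : ∀ x ∈ EE ρ c (N0 + 1), x = 0 := fun x hx =>
      AddSubgroup.mem_bot.1 (hE N0 x hx ⊥ fun w hw' y _ => by
        have := hN (w.map c) (by simpa using hw')
        rw [List.map_map] at this
        rw [AddSubgroup.mem_bot]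
        exact mul_eq_zero_of_left this y)
    have hin : ∀ L : List H, (∀ k ∈ L, k ∈ Subgroup.closure (Set.range c)) →
        (L.map fun h => ρ h - 1).prod ∈ EE ρ c L.length := by
      intro L
      induction L with
      | nil => exact fun _ => AddSubgroup.mem_top _
      | cons k L ih =>
        intro h
        rw [List.map_cons, List.prod_cons]
        exact EE_L hL (h k (by simp)) (ih fun k' hk' => h k' (by simp [hk']))
    exact hbot _ (EE_anti hL (by omega) (hall N0 (hL2 ▸ hin L hL1)))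
  · obtain ⟨hk, g, g1, g2, g3⟩ := comm_lift F h0 (fun j => h1 _ (hcL j)) N hc hl
    have t1 := F.mul' (F.mul (h1 _ (hcL i)) g2) (h1 _ (hcL i)) (k := k + 3) (by omega)
    have t2 : ρ g - 1 ∈ TF ρ (Mk ρ F h0 N k) (u i) 0 := by
      rcases g3 with g3 | ⟨j, rfl, rfl⟩
      · exact m_sub (M := Mk ρ F h0 N k) ⟨g3, g1⟩
      · have a1 : ρ ((c i)⁻¹ * c j) ∈ TF ρ (Mk ρ F h0 N 1) (u i) 0 :=
          m_mem0 (M := Mk ρ F h0 N 1) ⟨hc i j, h1 _ (mul_mem (inv_mem (hcL i)) (hcL j))⟩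
        have a2 := Fil.mul (mem0_of_sub (hT i (Mk ρ F h0 N 1))) a1
        rw [← map_mul, mul_inv_cancel_left] at a2
        exact sub_mem a2 Fil.one
    refine Ctx.mem_eq (add_mem t1 (F.anti (by omega) (sand i k _ t2))) ?_
    noncomm_ring

end Pool.Agent.MP_3312ae_al.HR.E
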