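import Mathlib

/-! Word lemma, part 1: weighted word filtrations and finite differences on a cube. -/

set_option autoImplicit false

namespace Pool.Agent.MP_3312ae_al.HR.E

open Finset

section Fil
variable {R : Type} [Ring R] {Λ : Type}

/-- Span of the words in the letters `val` of total weight at least `a`. -/
def Fil (val : Λ → R) (w : Λ → ℕ) (a : ℕ) : AddSubgroup R :=
  AddSubgroup.closure {x | ∃ L : List Λ, a ≤ (L.map w).sum ∧ x = (L.map val).prod}

variable {val : Λ → R} {w : Λ → ℕ}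

theorem Fil.word (L : List Λ) {a : ℕ} (h : a ≤ (L.map w).sum) : (L.map val).prod ∈ Fil val w a :=
  AddSubgroup.subset_closure ⟨L, h, rfl⟩

theorem Fil.mono {a b : ℕ} (h : a ≤ b) {x : R} (hx : x ∈ Fil val w b) : x ∈ Fil val w a := by
  refine AddSubgroup.closure_mono ?_ hx
  rintro _ ⟨L, hL, rfl⟩
  exact ⟨L, h.trans hL, rfl⟩

theorem Fil.one : (1 : R) ∈ Fil val w 0 := by
  simpa using Fil.word (val := val) (w := w) [] (a := 0) (by simp)

theorem Fil.letter (l : Λ) : val l ∈ Fil val w (w l) := by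
  simpa using Fil.word (val := val) (w := w) [l] (a := w l) (by simp)

/-- Left multiples of a closure. -/
theorem mul_closure {s : Set R} {Q : AddSubgroup R} {a x : R} (hx : x ∈ AddSubgroup.closure s)
    (h : ∀ y ∈ s, a * y ∈ Q) : a * x ∈ Q := by
  induction hx using AddSubgroup.closure_induction with
  | mem y hy => exact h y hy
  | zero => simp
  | add y z _ _ hy hz => rw [mul_add]; exact Q.add_mem hy hz
  | neg y _ hy => rw [mul_neg]; exact Q.neg_mem hy

/-- Two-sided multiples of a closure. -/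
theorem mul_closure_mul {s : Set R} {Q : AddSubgroup R} {a b x : R}
    (hx : x ∈ AddSubgroup.closure s) (h : ∀ y ∈ s, a * y * b ∈ Q) : a * x * b ∈ Q := by
  induction hx using AddSubgroup.closure_induction with
  | mem y hy => exact h y hy
  | zero => simp
  | add y z _ _ hy hz => rw [mul_add, add_mul]; exact Q.add_mem hy hz
  | neg y _ hy => rw [mul_neg, neg_mul]; exact Q.neg_mem hy

theorem closure_mul {s : Set R} {Q : AddSubgroup R} {b x : R}
    (hx : x ∈ AddSubgroup.closure s) (h : ∀ y ∈ s, y * b ∈ Q) : x * b ∈ Q := by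
  have := mul_closure_mul (a := 1) (b := b) (Q := Q) hx (by simpa using h)
  simpa using this

theorem Fil.mul {a b : ℕ} {x y : R} (hx : x ∈ Fil val w a) (hy : y ∈ Fil val w b) :
    x * y ∈ Fil val w (a + b) := by
  refine closure_mul hx ?_
  rintro _ ⟨L, hL, rfl⟩
  refine mul_closure hy ?_
  rintro _ ⟨L', hL', rfl⟩
  have := Fil.word (val := val) (w := w) (L ++ L') (a := a + b) (by simp; omega)
  simpa using this

theorem Fil.mul' {a b c : ℕ} {x y : R} (hx : x ∈ Fil val w a) (hy : y ∈ Fil val w b)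
    (h : c ≤ a + b) : x * y ∈ Fil val w c := Fil.mono h (Fil.mul hx hy)

theorem Fil.zero_of (w' : Λ → ℕ) {a : ℕ} {x : R} (hx : x ∈ Fil val w a) : x ∈ Fil val w' 0 := by
  refine AddSubgroup.closure_mono ?_ hx
  rintro _ ⟨L, _, rfl⟩
  exact ⟨L, Nat.zero_le _, rfl⟩

theorem Fil.pow {x : R} (hx : x ∈ Fil val w 0) (n : ℕ) : x ^ n ∈ Fil val w 0 := by
  induction n with
  | zero => simpa using Fil.one
  | succ n ih => rw [pow_succ]; exact Fil.mul' ih hx le_rfl

end Fil

section Lam
variable {R : Type} [Ring R] {ι : Type} [DecidableEq ι]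

/-- Iterated finite difference over the cube `S`. -/
def lam (S : Finset ι) (φ : Finset ι → R) : R :=
  ∑ T ∈ S.powerset, (-1 : ℤ) ^ (S.card + T.card) • φ T

@[simp] theorem lam_empty (φ : Finset ι → R) : lam ∅ φ = φ ∅ := by simp [lam]

theorem lam_insert {S : Finset ι} {l : ι} (hl : l ∉ S) (φ : Finset ι → R) :
    lam (insert l S) φ = lam S (fun T => φ (insert l T)) - lam S φ := by
  unfold lam
  rw [sum_powerset_insert hl, card_insert_of_notMem hl, sub_eq_add_neg, add_comm,
    ← sum_neg_distrib]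
  congr 1
  · refine sum_congr rfl fun T hT => ?_
    have : l ∉ T := fun h => hl (mem_powerset.1 hT h)
    rw [card_insert_of_notMem this]
    congr 1
    rw [show S.card + 1 + (T.card + 1) = S.card + T.card + 2 by ring, pow_add]
    simp
  · refine sum_congr rfl fun T _ => ?_
    rw [show S.card + 1 + T.card = S.card + T.card + 1 by ring, pow_succ]
    simp

theorem lam_congr {S : Finset ι} {φ ψ : Finset ι → R} (h : ∀ T ⊆ S, φ T = ψ T) :
    lam S φ = lam S ψ :=
  sum_congr rfl fun T hT => by rw [h T (mem_powerset.1 hT)]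

theorem lam_add (S : Finset ι) (φ ψ : Finset ι → R) :
    lam S (fun T => φ T + ψ T) = lam S φ + lam S ψ := by
  simp [lam, sum_add_distrib]

theorem lam_sub (S : Finset ι) (φ ψ : Finset ι → R) :
    lam S (fun T => φ T - ψ T) = lam S φ - lam S ψ := by
  simp only [lam, smul_sub, sum_sub_distrib]

theorem lam_mul_left (S : Finset ι) (a : R) (φ : Finset ι → R) :
    lam S (fun T => a * φ T) = a * lam S φ := by
  simp only [lam, mul_sum, mul_smul_comm]

theorem lam_mul_right (S : Finset ι) (a : R) (φ : Finset ι → R) :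
    lam S (fun T => φ T * a) = lam S φ * a := by
  simp only [lam, sum_mul, smul_mul_assoc]

theorem lam_zero (S : Finset ι) : lam S (fun _ => (0 : R)) = 0 := by simp [lam]

theorem lam_indep {S : Finset ι} {l : ι} (hl : l ∈ S) {φ : Finset ι → R}
    (h : ∀ T, φ (insert l T) = φ T) : lam S φ = 0 := by
  rw [← insert_erase hl, lam_insert (notMem_erase l S)]
  simp [h]

/-- Leibniz rule. -/
theorem lam_mul (Q : AddSubgroup R) (S : Finset ι) : ∀ φ ψ : Finset ι → R,
    (∀ S₁ S₂ : Finset ι, S₁ ∪ S₂ = S → lam S₁ φ * lam S₂ ψ ∈ Q) →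
      lam S (fun T => φ T * ψ T) ∈ Q := by
  induction S using Finset.induction_on with
  | empty => intro φ ψ h; simpa using h ∅ ∅ (by simp)
  | insert l S hl ih =>
    intro φ ψ h
    have e : lam (insert l S) (fun T => φ T * ψ T) =
        lam S (fun T => (φ (insert l T) - φ T) * ψ T) +
        lam S (fun T => φ T * (ψ (insert l T) - ψ T)) +
        lam S (fun T => (φ (insert l T) - φ T) * (ψ (insert l T) - ψ T)) := by
      rw [lam_insert hl, ← lam_sub, ← lam_add, ← lam_add]
      exact lam_congr fun T _ => by noncomm_ring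
    have hn : ∀ S₁ S₂ : Finset ι, S₁ ∪ S₂ = S → l ∉ S₁ ∧ l ∉ S₂ := fun S₁ S₂ e =>
      ⟨fun h => hl (e ▸ mem_union_left _ h), fun h => hl (e ▸ mem_union_right _ h)⟩
    rw [e]
    refine Q.add_mem (Q.add_mem (ih _ _ ?_) (ih _ _ ?_)) (ih _ _ ?_)
    · intro S₁ S₂ e
      rw [lam_sub, ← lam_insert (hn _ _ e).1]
      exact h _ _ (by rw [insert_union, e])
    · intro S₁ S₂ e
      rw [lam_sub, ← lam_insert (hn _ _ e).2]
      exact h _ _ (by rw [union_insert, e])
    · intro S₁ S₂ e
      rw [lam_sub, lam_sub, ← lam_insert (hn _ _ e).1, ← lam_insert (hn _ _ e).2]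
      exact h _ _ (by rw [insert_union, union_insert, insert_idem, e])

variable {Λ : Type} {val : Λ → R} {w : Λ → ℕ}

/-- All differences of `φ` over subcubes of `Y` have the expected weight. -/
def Cl (val : Λ → R) (w : Λ → ℕ) (Y : Finset ι) (c : ι → ℕ) (b : ℕ) (φ : Finset ι → R) : Prop :=
  ∀ S ⊆ Y, lam S φ ∈ Fil val w (b + ∑ l ∈ S, c l)

variable {Y : Finset ι} {c : ι → ℕ}

theorem sum_union_le (c : ι → ℕ) (S₁ S₂ : Finset ι) :
    ∑ l ∈ S₁ ∪ S₂, c l ≤ ∑ l ∈ S₁, c l + ∑ l ∈ S₂, c l := by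
  rw [← sum_union_inter]; omega

theorem Cl.mul {a b : ℕ} {φ ψ : Finset ι → R} (h₁ : Cl val w Y c a φ) (h₂ : Cl val w Y c b ψ) :
    Cl val w Y c (a + b) (fun T => φ T * ψ T) := by
  intro S hS
  refine lam_mul _ S φ ψ fun S₁ S₂ e => ?_
  subst e
  have := sum_union_le c S₁ S₂
  exact Fil.mul' (h₁ _ (subset_union_left.trans hS)) (h₂ _ (subset_union_right.trans hS))
    (by omega)

theorem Cl.add {a : ℕ} {φ ψ : Finset ι → R} (h₁ : Cl val w Y c a φ) (h₂ : Cl val w Y c a ψ) :
    Cl val w Y c a (fun T => φ T + ψ T) := fun S hS => by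
  rw [lam_add]; exact AddSubgroup.add_mem _ (h₁ S hS) (h₂ S hS)

theorem Cl.sub {a : ℕ} {φ ψ : Finset ι → R} (h₁ : Cl val w Y c a φ) (h₂ : Cl val w Y c a ψ) :
    Cl val w Y c a (fun T => φ T - ψ T) := fun S hS => by
  rw [lam_sub]; exact AddSubgroup.sub_mem _ (h₁ S hS) (h₂ S hS)

theorem Cl.mono {a b : ℕ} {φ : Finset ι → R} (h : a ≤ b) (h₁ : Cl val w Y c b φ) :
    Cl val w Y c a φ := fun S hS => Fil.mono (by omega) (h₁ S hS)

theorem Cl.const {a : ℕ} {x : R} (hx : x ∈ Fil val w a) : Cl val w Y c a (fun _ => x) := by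
  intro S _
  rcases S.eq_empty_or_nonempty with rfl | ⟨l, hl⟩
  · simpa using hx
  · rw [lam_indep hl fun _ => rfl]; exact AddSubgroup.zero_mem _

theorem Cl.congr {a : ℕ} {φ ψ : Finset ι → R} (h₁ : Cl val w Y c a φ) (h : ∀ T, φ T = ψ T) :
    Cl val w Y c a ψ := (funext h : φ = ψ) ▸ h₁

theorem Cl.pow {φ : Finset ι → R} (h : Cl val w Y c 0 φ) (n : ℕ) :
    Cl val w Y c 0 (fun T => φ T ^ n) := by
  induction n with
  | zero => exact (Cl.const Fil.one).congr fun _ => by simp
  | succ n ih => exact (ih.mul h).congr fun _ => by rw [pow_succ]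

end Lam

end Pool.Agent.MP_3312ae_al.HR.E
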