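import Pool.Agent.MP_3312ae_al.HR.E.Word1

/-! Word lemma, part 2: nested commutators, their Fox derivatives, weights of differences. -/

set_option autoImplicit false
set_option linter.unusedSectionVars false

namespace Pool.Agent.MP_3312ae_al.HR.E

open Finset
open scoped commutatorElement

variable {H R ι : Type} [Group H] [Ring R] [DecidableEq ι]

/-- The nested commutator `⁅u z₁, ⁅u z₂, … u y0⁆⁆`. -/
def cG (y0 : ι) (u : ι → H) : List ι → H
  | [] => u y0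
  | z :: zs => ⁅u z, cG y0 u zs⁆

/-- The left Fox derivative of `cG` in the letter `y0`, evaluated in `R`. -/
def cD (ρ : H →* R) (y0 : ι) (u : ι → H) : List ι → R
  | [] => 1
  | z :: zs => (ρ (u z) - ρ (cG y0 u (z :: zs))) * cD ρ y0 u zs +
      if z = y0 then 1 - ρ (cG y0 u (z :: zs)) * ρ (cG y0 u zs) else 0

/-- The letters `ρ (t i) - 1` and `ρ ν - 1`, `ν ∈ M`. -/
def lval (ρ : H →* R) (M : Subgroup H) (t : ι → H) : ι ⊕ M → R
  | Sum.inl i => ρ (t i) - 1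
  | Sum.inr ν => ρ ν - 1

/-- Vertex `T` of the cube of tuples. -/
def pt (t μ : ι → H) (T : Finset ι) (z : ι) : H := if z ∈ T then μ z * t z else t z

theorem comm_sub_one (ρ : H →* R) (a b : H) :
    ρ ⁅a, b⁆ - 1 = ((ρ a - 1) * (ρ b - 1) - (ρ b - 1) * (ρ a - 1)) * ρ a⁻¹ * ρ b⁻¹ := by
  have h1 : ρ b * ρ a * ρ a⁻¹ * ρ b⁻¹ = 1 := by simp only [← map_mul]; simp
  have h2 : ((ρ a - 1) * (ρ b - 1) - (ρ b - 1) * (ρ a - 1)) * ρ a⁻¹ * ρ b⁻¹ =
      ρ a * ρ b * ρ a⁻¹ * ρ b⁻¹ - ρ b * ρ a * ρ a⁻¹ * ρ b⁻¹ := by noncomm_ring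
  rw [h2, h1, commutatorElement_def]
  simp only [map_mul]

theorem comm_mul (ρ : H →* R) (a b : H) :
    ρ a * ρ b - ρ b * ρ a = (ρ ⁅a, b⁆ - 1) * (ρ b * ρ a) := by
  have h1 : ρ ⁅a, b⁆ * (ρ b * ρ a) = ρ a * ρ b := by
    simp only [← map_mul, commutatorElement_def]; congr 1; group
  rw [sub_mul, h1, one_mul]

theorem inv_eq_pow [Finite H] (h : H) : h⁻¹ = h ^ (Nat.card H - 1) := by
  have h1 : 0 < Nat.card H := Nat.card_pos
  have h2 : h ^ (Nat.card H - 1) * h = 1 := by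
    rw [← pow_succ, Nat.sub_add_cancel h1, pow_card_eq_one']
  exact (eq_inv_of_mul_eq_one_left h2).symm

section Cls
variable {ρ : H →* R} {M : Subgroup H} {t : ι → H} {w : ι ⊕ M → ℕ}

theorem mem0_of_sub {a : ℕ} {x : R} (h : x - 1 ∈ Fil (lval ρ M t) w a) :
    x ∈ Fil (lval ρ M t) w 0 := by
  simpa using AddSubgroup.add_mem _ (Fil.mono (Nat.zero_le _) h) Fil.one

theorem t_sub (z : ι) : ρ (t z) - 1 ∈ Fil (lval ρ M t) w (w (Sum.inl z)) :=
  Fil.letter (val := lval ρ M t) (Sum.inl z)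

theorem m_sub {ν : H} (h : ν ∈ M) : ρ ν - 1 ∈ Fil (lval ρ M t) w (w (Sum.inr ⟨ν, h⟩)) :=
  Fil.letter (val := lval ρ M t) (Sum.inr ⟨ν, h⟩)

theorem t_mem0 (z : ι) : ρ (t z) ∈ Fil (lval ρ M t) w 0 := mem0_of_sub (t_sub z)

theorem m_mem0 {ν : H} (h : ν ∈ M) : ρ ν ∈ Fil (lval ρ M t) w 0 := mem0_of_sub (m_sub h)

theorem inv_mem0 [Finite H] {h : H} (hh : ρ h ∈ Fil (lval ρ M t) w 0) :
    ρ h⁻¹ ∈ Fil (lval ρ M t) w 0 := by
  rw [inv_eq_pow, map_pow]; exact Fil.pow hh _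

theorem inv_sub [Finite H] {h : H} {a : ℕ} (hh : ρ h - 1 ∈ Fil (lval ρ M t) w a) :
    ρ h⁻¹ - 1 ∈ Fil (lval ρ M t) w a := by
  have e : ρ h⁻¹ - 1 = -(ρ h⁻¹ * (ρ h - 1)) := by
    rw [mul_sub, ← map_mul]; simp
  rw [e]
  exact AddSubgroup.neg_mem _ (Fil.mul' (inv_mem0 (mem0_of_sub hh)) hh (by omega))

theorem comm_sub [Finite H] {g h : H} {a b : ℕ} (hg : ρ g - 1 ∈ Fil (lval ρ M t) w a)
    (hh : ρ h - 1 ∈ Fil (lval ρ M t) w b) : ρ ⁅g, h⁆ - 1 ∈ Fil (lval ρ M t) w (a + b) := by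
  rw [comm_sub_one]
  refine Fil.mul' (Fil.mul' (AddSubgroup.sub_mem _ (Fil.mul hg hh) (Fil.mul' hh hg (by omega)))
    (inv_mem0 (mem0_of_sub hg)) (le_refl (a + b))) (inv_mem0 (mem0_of_sub hh)) le_rfl

variable {Y : Finset ι} {c : ι → ℕ} {μ : ι → H}

theorem Cl.of_sub {a : ℕ} {φ : Finset ι → R} (h : Cl (lval ρ M t) w Y c a (fun T => φ T - 1)) :
    Cl (lval ρ M t) w Y c 0 φ :=
  ((h.mono (Nat.zero_le _)).add (Cl.const Fil.one)).congr fun _ => by simp

theorem Cl.inv [Finite H] {γ : Finset ι → H} (h : Cl (lval ρ M t) w Y c 0 (fun T => ρ (γ T))) :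
    Cl (lval ρ M t) w Y c 0 (fun T => ρ (γ T)⁻¹) :=
  (h.pow (Nat.card H - 1)).congr fun _ => by rw [inv_eq_pow, map_pow]

theorem cl_coord (hY : ∀ z ∈ Y, w (Sum.inl z) = 0)
    (hc : ∀ l, ρ (μ l) - 1 ∈ Fil (lval ρ M t) w (c l)) (z : ι) :
    Cl (lval ρ M t) w Y c (w (Sum.inl z)) (fun T => ρ (pt t μ T z) - 1) := by
  intro S hS
  by_cases h : ∃ l ∈ S, l ≠ z
  · obtain ⟨l, hl, hne⟩ := h
    rw [lam_indep hl fun T => by simp [pt, hne.symm]]
    exact AddSubgroup.zero_mem _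
  · have h' : S ⊆ {z} := fun l hl => by
      by_contra hne
      exact h ⟨l, hl, by simpa using hne⟩
    rcases subset_singleton_iff.1 h' with rfl | rfl
    · simpa [pt] using t_sub z
    · have e : lam {z} (fun T => ρ (pt t μ T z) - 1) = (ρ (μ z) - 1) * ρ (t z) := by
        rw [← insert_empty_eq, lam_insert (notMem_empty z)]
        simp [pt, sub_mul]
      rw [e, hY z (hS (mem_singleton_self z))]
      exact Fil.mul' (hc z) (t_mem0 z) (by simp)

theorem cl_G [Finite H] (hY : ∀ z ∈ Y, w (Sum.inl z) = 0)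
    (hc : ∀ l, ρ (μ l) - 1 ∈ Fil (lval ρ M t) w (c l)) (y0 : ι) (zs : List ι) :
    Cl (lval ρ M t) w Y c ((zs.map fun z => w (Sum.inl z)).sum + w (Sum.inl y0))
      (fun T => ρ (cG y0 (pt t μ T) zs) - 1) := by
  induction zs with
  | nil => simpa [cG] using cl_coord hY hc y0
  | cons z zs ih =>
    have hz := cl_coord hY hc z
    have h1 := (((hz.mul ih).sub ((ih.mul hz).mono (by omega))).mul hz.of_sub.inv).mul
      ih.of_sub.inv
    refine (h1.mono (by simp; omega)).congr fun T => ?_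
    rw [cG, comm_sub_one]

theorem cl_D [Finite H] (hY : ∀ z ∈ Y, w (Sum.inl z) = 0)
    (hc : ∀ l, ρ (μ l) - 1 ∈ Fil (lval ρ M t) w (c l)) (y0 : ι) (zs : List ι) :
    Cl (lval ρ M t) w Y c ((zs.map fun z => w (Sum.inl z)).sum)
      (fun T => cD ρ y0 (pt t μ T) zs) := by
  induction zs with
  | nil => simpa [cD] using Cl.const Fil.one
  | cons z zs ih =>
    have hz := cl_coord hY hc z
    have hh := cl_G hY hc y0 (z :: zs)
    have hg := cl_G hY hc y0 zs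
    have h1 := (hz.sub (hh.mono (by simp; omega))).mul ih
    by_cases e : z = y0
    · subst e
      have h2 := ((hh.mul hg.of_sub).mono
        (show (zs.map fun z => w (Sum.inl z)).sum + w (Sum.inl z) ≤ _ by simp [add_comm])).add hg
      refine ((h1.sub (h2.mono (by omega))).mono (by simp)).congr fun T => ?_
      simp only [cD, if_true]
      noncomm_ring
    · refine (h1.mono (by simp)).congr fun T => ?_
      simp only [cD, if_neg e]
      noncomm_ring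

end Cls

end Pool.Agent.MP_3312ae_al.HR.E
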