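import Pool.Agent.MP_3312ae_al.HR.E.Word2

/-! Word lemma, part 3: the subgroups `K i a`, `YY i a` and the four rewriting rules. -/

set_option autoImplicit false
set_option linter.unusedSectionVars false

namespace Pool.Agent.MP_3312ae_al.HR.E

open Finset
open scoped commutatorElement

/-- The data of the word lemma. -/
structure Ctx (H R ι : Type) [Group H] [Ring R] where
  ρ : H →* R
  M : Subgroup H
  hM : M.Normal
  t : ι → H
  y0 : ι
  Y : Finset ι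
  hy : y0 ∉ Y

namespace Ctx

variable {H R ι : Type} [Group H] [Finite H] [Ring R] [DecidableEq ι] (C : Ctx H R ι)

/-- Weight of a letter: reserved letters weigh nothing. -/
def eps (i : ι) : ℕ := if i ∈ insert C.y0 C.Y then 0 else 1

def wI : ι ⊕ C.M → ℕ := Sum.elim C.eps fun _ => 0

def wM : ι ⊕ C.M → ℕ := Sum.elim (fun _ => 0) fun _ => 1

def I (a : ℕ) : AddSubgroup R := Fil (lval C.ρ C.M C.t) C.wI a

def mm (r : ℕ) : AddSubgroup R := Fil (lval C.ρ C.M C.t) C.wM r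

def dd (zs : List ι) (S : Finset ι) (μ : ι → H) : R :=
  lam S fun T => cD C.ρ C.y0 (pt C.t μ T) zs

def gg (zs : List ι) (S : Finset ι) (μ : ι → H) : R :=
  lam S fun T => C.ρ (cG C.y0 (pt C.t μ T) zs) - 1

def ok (μ : ι → H) (c : ι → ℕ) : Prop := ∀ l, μ l ∈ C.M ∧ C.ρ (μ l) - 1 ∈ C.I (c l)

def wt (zs : List ι) (S : Finset ι) (c : ι → ℕ) : ℕ := (zs.map C.eps).sum + ∑ l ∈ S, c l

def K (i a : ℕ) : AddSubgroup R := AddSubgroup.closure
  {x | x ∈ C.mm (C.Y.card + 1) ∨ ∃ (α β : R) (a₁ a₂ : ℕ) (zs : List ι) (S : Finset ι)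
    (μ : ι → H) (c : ι → ℕ), α ∈ C.I a₁ ∧ β ∈ C.I a₂ ∧ zs.length = i ∧ S ⊆ C.Y ∧ C.ok μ c ∧
    a ≤ a₁ + C.wt zs S c + a₂ ∧ (x = α * C.dd zs S μ * β ∨ x = α * C.gg zs S μ * β)}

def YY (i a : ℕ) : AddSubgroup R := AddSubgroup.closure
  {x | x ∈ C.K (i + 1) a ∨ ∃ y ∈ insert C.y0 C.Y, ∃ β ∈ C.I a, x = (C.ρ (C.t y) - 1) * β}

variable {C}

theorem eps_Y {y : ι} (h : y ∈ insert C.y0 C.Y) : C.eps y = 0 := if_pos h

theorem eps_y0 : C.eps C.y0 = 0 := eps_Y (mem_insert_self _ _)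

theorem eps_of_mem {y : ι} (h : y ∈ C.Y) : C.eps y = 0 := eps_Y (mem_insert_of_mem h)

theorem eps_le (y : ι) : C.eps y ≤ 1 := by unfold eps; split_ifs <;> omega

theorem I_one : (1 : R) ∈ C.I 0 := Fil.one

theorem I_mono {a b : ℕ} (h : a ≤ b) {x : R} (hx : x ∈ C.I b) : x ∈ C.I a := Fil.mono h hx

theorem I_mul {a b c : ℕ} {x y : R} (hx : x ∈ C.I a) (hy : y ∈ C.I b) (h : c ≤ a + b) :
    x * y ∈ C.I c := Fil.mul' hx hy h

theorem mm_mul {a b c : ℕ} {x y : R} (hx : x ∈ C.mm a) (hy : y ∈ C.mm b) (h : c ≤ a + b) :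
    x * y ∈ C.mm c := Fil.mul' hx hy h

theorem mm0 {a : ℕ} {x : R} (hx : x ∈ C.I a) : x ∈ C.mm 0 := Fil.zero_of _ hx

theorem tI (z : ι) : C.ρ (C.t z) - 1 ∈ C.I (C.eps z) := t_sub (w := C.wI) z

theorem tI0 (z : ι) : C.ρ (C.t z) ∈ C.I 0 := t_mem0 z

theorem tI0' (z : ι) : C.ρ (C.t z)⁻¹ ∈ C.I 0 := inv_mem0 (t_mem0 z)

theorem mI0 {ν : H} (h : ν ∈ C.M) : C.ρ ν - 1 ∈ C.I 0 := m_sub (w := C.wI) h

theorem mM {ν : H} (h : ν ∈ C.M) : C.ρ ν - 1 ∈ C.mm 1 := m_sub (w := C.wM) h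

variable {zs : List ι} {S : Finset ι} {μ : ι → H} {c : ι → ℕ}

theorem clG (h : C.ok μ c) (zs : List ι) :
    Cl (lval C.ρ C.M C.t) C.wI C.Y c (zs.map C.eps).sum
      (fun T => C.ρ (cG C.y0 (pt C.t μ T) zs) - 1) := by
  have := cl_G (w := C.wI) (Y := C.Y) (fun z hz => eps_of_mem hz) (fun l => (h l).2) C.y0 zs
  exact this.mono (Nat.le_add_right _ _)

theorem clD (h : C.ok μ c) (zs : List ι) :
    Cl (lval C.ρ C.M C.t) C.wI C.Y c (zs.map C.eps).sum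
      (fun T => cD C.ρ C.y0 (pt C.t μ T) zs) :=
  cl_D (w := C.wI) (Y := C.Y) (fun _ hz => eps_of_mem hz) (fun l => (h l).2) C.y0 zs

theorem clU (h : C.ok μ c) (z : ι) :
    Cl (lval C.ρ C.M C.t) C.wI C.Y c 0 (fun T => C.ρ (pt C.t μ T z)) := by
  have h1 : ∀ l, C.ρ (μ l) - 1 ∈ Fil (lval C.ρ C.M C.t) C.wI (c l) := fun l => (h l).2
  have h2 : ∀ z ∈ C.Y, C.wI (Sum.inl z) = 0 := fun z hz => eps_of_mem hz
  exact (cl_coord h2 h1 z).of_sub

theorem comm_aux (ρ : H →* R) (a b : H) :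
    (ρ ⁅a, b⁆ - 1) * (ρ b * ρ a) = ρ a * (ρ b - 1) - (ρ b - 1) * ρ a := by
  rw [← comm_mul]
  noncomm_ring

theorem dI (hS : S ⊆ C.Y) (h : C.ok μ c) : C.dd zs S μ ∈ C.I (C.wt zs S c) := clD h zs S hS

theorem gI (hS : S ⊆ C.Y) (h : C.ok μ c) : C.gg zs S μ ∈ C.I (C.wt zs S c) := clG h zs S hS

theorem dM (hS : S ⊆ C.Y) (h : C.ok μ c) : C.dd zs S μ ∈ C.mm S.card := by
  have := cl_D (w := C.wM) (Y := C.Y) (c := fun _ => 1) (fun _ _ => rfl)
    (fun l => mM (h l).1) C.y0 zs S hS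
  exact Fil.mono (by simp) this

theorem gM (hS : S ⊆ C.Y) (h : C.ok μ c) : C.gg zs S μ ∈ C.mm S.card := by
  have := cl_G (w := C.wM) (Y := C.Y) (c := fun _ => 1) (fun _ _ => rfl)
    (fun l => mM (h l).1) C.y0 zs S hS
  exact Fil.mono (by simp) this

theorem K_mm {i a : ℕ} {x : R} (h : x ∈ C.mm (C.Y.card + 1)) : x ∈ C.K i a :=
  AddSubgroup.subset_closure (Or.inl h)

theorem K_mul {i a a₁ a₂ b : ℕ} {x α β : R} (hx : x ∈ C.K i a) (hα : α ∈ C.I a₁)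
    (hβ : β ∈ C.I a₂) (h : b ≤ a₁ + a + a₂) : α * x * β ∈ C.K i b := by
  refine mul_closure_mul hx ?_
  rintro y (hy | ⟨α', β', b₁, b₂, zs, S, μ, c, h1, h2, h3, h4, h5, h6, h7⟩)
  · exact K_mm (mm_mul (mm_mul (mm0 hα) hy (le_of_eq (zero_add _).symm)) (mm0 hβ) le_rfl)
  · refine AddSubgroup.subset_closure (Or.inr ⟨α * α', β' * β, a₁ + b₁, b₂ + a₂, zs, S, μ, c,
      I_mul hα h1 le_rfl, I_mul h2 hβ le_rfl, h3, h4, h5, by omega, ?_⟩)
    rcases h7 with rfl | rfl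
    · left; simp only [mul_assoc]
    · right; simp only [mul_assoc]

theorem K_left {i a a₁ b : ℕ} {x α : R} (hα : α ∈ C.I a₁) (hx : x ∈ C.K i a)
    (h : b ≤ a₁ + a) : α * x ∈ C.K i b := by
  simpa using K_mul hx hα I_one (b := b) (by omega)

theorem K_right {i a a₂ b : ℕ} {x β : R} (hx : x ∈ C.K i a) (hβ : β ∈ C.I a₂)
    (h : b ≤ a + a₂) : x * β ∈ C.K i b := by
  simpa using K_mul hx I_one hβ (b := b) (by omega)

theorem K_mono {i a b : ℕ} {x : R} (hx : x ∈ C.K i a) (h : b ≤ a) : x ∈ C.K i b := by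
  simpa using K_right hx I_one (b := b) (by omega)

theorem K_d (hS : S ⊆ C.Y) (h : C.ok μ c) : C.dd zs S μ ∈ C.K zs.length (C.wt zs S c) :=
  AddSubgroup.subset_closure (Or.inr ⟨1, 1, 0, 0, zs, S, μ, c, I_one, I_one, rfl, hS, h,
    by omega, Or.inl (by simp)⟩)

theorem K_g (hS : S ⊆ C.Y) (h : C.ok μ c) : C.gg zs S μ ∈ C.K zs.length (C.wt zs S c) :=
  AddSubgroup.subset_closure (Or.inr ⟨1, 1, 0, 0, zs, S, μ, c, I_one, I_one, rfl, hS, h,
    by omega, Or.inr (by simp)⟩)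

theorem YY_K {i a b : ℕ} {x : R} (hx : x ∈ C.K (i + 1) a) (h : b ≤ a) : x ∈ C.YY i b :=
  AddSubgroup.subset_closure (Or.inl (K_mono hx h))

theorem YY_y {i a b : ℕ} {y : ι} (hy : y ∈ insert C.y0 C.Y) {β : R} (hβ : β ∈ C.I a)
    (h : b ≤ a) : (C.ρ (C.t y) - 1) * β ∈ C.YY i b :=
  AddSubgroup.subset_closure (Or.inr ⟨y, hy, β, I_mono h hβ, rfl⟩)

theorem YY_right {i a a₂ b : ℕ} {x β : R} (hx : x ∈ C.YY i a) (hβ : β ∈ C.I a₂)
    (h : b ≤ a + a₂) : x * β ∈ C.YY i b := by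
  refine closure_mul hx ?_
  rintro y (hy | ⟨y, hy, β', h1, rfl⟩)
  · exact YY_K (K_right hy hβ h) le_rfl
  · rw [mul_assoc]; exact YY_y hy (I_mul h1 hβ h) le_rfl

theorem YY_mono {i a b : ℕ} {x : R} (hx : x ∈ C.YY i a) (h : b ≤ a) : x ∈ C.YY i b := by
  simpa using YY_right hx I_one (b := b) (by omega)

theorem YY_mm {i a : ℕ} {x : R} (h : x ∈ C.mm (C.Y.card + 1)) : x ∈ C.YY i a :=
  YY_K (K_mm (a := a) h) le_rfl

theorem KG (hS : S ⊆ C.Y) (h : C.ok μ c) {φ : Finset ι → R}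
    (hφ : Cl (lval C.ρ C.M C.t) C.wI C.Y c 0 φ) :
    lam S (fun T => (C.ρ (cG C.y0 (pt C.t μ T) zs) - 1) * φ T) ∈
      C.K zs.length (C.wt zs S c) := by
  refine lam_mul _ S _ φ fun S₁ S₂ e => ?_
  subst e
  have := sum_union_le c S₁ S₂
  exact K_right (K_g (subset_union_left.trans hS) h) (hφ _ (subset_union_right.trans hS))
    (by unfold wt; omega)

theorem wt_cons (z : ι) : C.wt (z :: zs) S c = C.eps z + C.wt zs S c := by
  simp [wt, add_assoc]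

theorem mem_eq {Q : AddSubgroup R} {x y : R} (h : x ∈ Q) (e : x = y) : y ∈ Q := e ▸ h

theorem ruleA (hS : S ⊆ C.Y) (h : C.ok μ c) (z : ι) :
    lam S (fun T => (C.ρ (pt C.t μ T z) - 1) * cD C.ρ C.y0 (pt C.t μ T) zs) -
      (if z = C.y0 then C.gg zs S μ else 0) ∈ C.K (zs.length + 1) (C.eps z + C.wt zs S c) := by
  rw [← wt_cons]
  have h1 := K_d (zs := z :: zs) hS h
  by_cases e : z = C.y0
  · have h2 := KG (zs := z :: zs) hS h
      (((clD h zs).mono (Nat.zero_le _)).add (clG h zs).of_sub)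
    have h3 := AddSubgroup.add_mem _ h1 h2
    rw [dd, ← lam_add] at h3
    rw [if_pos e, gg, ← lam_sub]
    refine mem_eq h3 (lam_congr fun T _ => ?_)
    simp only [cD, if_pos e]
    noncomm_ring
  · have h2 := KG (zs := z :: zs) hS h ((clD h zs).mono (Nat.zero_le _))
    have h3 := AddSubgroup.add_mem _ h1 h2
    rw [dd, ← lam_add] at h3
    rw [if_neg e, sub_zero]
    refine mem_eq h3 (lam_congr fun T _ => ?_)
    simp only [cD, if_neg e]
    noncomm_ring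

theorem ruleB (hS : S ⊆ C.Y) (h : C.ok μ c) (z : ι) :
    lam S (fun T => C.ρ (pt C.t μ T z) * (C.ρ (cG C.y0 (pt C.t μ T) zs) - 1) -
      (C.ρ (cG C.y0 (pt C.t μ T) zs) - 1) * C.ρ (pt C.t μ T z)) ∈
      C.K (zs.length + 1) (C.eps z + C.wt zs S c) := by
  rw [← wt_cons]
  have h0 : Cl (lval C.ρ C.M C.t) C.wI C.Y c 0
      (fun T => C.ρ (cG C.y0 (pt C.t μ T) zs) * C.ρ (pt C.t μ T z)) :=
    (Cl.mul (Cl.of_sub (clG h zs)) (clU h z)).mono (Nat.zero_le _)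
  have h2 := KG (zs := z :: zs) hS h h0
  refine mem_eq h2 (lam_congr fun T _ => ?_)
  exact comm_aux _ _ _

theorem pt_not {T : Finset ι} {z : ι} (hz : z ∉ S) (hT : T ⊆ S) : pt C.t μ T z = C.t z :=
  if_neg fun h => hz (hT h)

theorem pt_ins (T : Finset ι) (z : ι) : pt C.t μ (insert z T) z = μ z * C.t z :=
  if_pos (mem_insert_self _ _)

theorem A1 (hS : S ⊆ C.Y) (h : C.ok μ c) {z : ι} (hz : z ∉ S) :
    (C.ρ (C.t z) - 1) * C.dd zs S μ - (if z = C.y0 then C.gg zs S μ else 0) ∈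
      C.K (zs.length + 1) (C.eps z + C.wt zs S c) := by
  have h1 := ruleA (zs := zs) hS h z
  rwa [lam_congr (ψ := fun T => (C.ρ (C.t z) - 1) * cD C.ρ C.y0 (pt C.t μ T) zs)
    fun T hT => by rw [pt_not hz hT], lam_mul_left] at h1

theorem B1 (hS : S ⊆ C.Y) (h : C.ok μ c) {z : ι} (hz : z ∉ S) :
    C.ρ (C.t z) * C.gg zs S μ - C.gg zs S μ * C.ρ (C.t z) ∈
      C.K (zs.length + 1) (C.eps z + C.wt zs S c) := by
  have h1 := ruleB (zs := zs) hS h z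
  rwa [lam_congr (ψ := fun T => C.ρ (C.t z) * (C.ρ (cG C.y0 (pt C.t μ T) zs) - 1) -
      (C.ρ (cG C.y0 (pt C.t μ T) zs) - 1) * C.ρ (C.t z))
    fun T hT => by rw [pt_not hz hT], lam_sub, lam_mul_left, lam_mul_right] at h1

theorem A2 {l : ι} (hS : insert l S ⊆ C.Y) (h : C.ok μ c) (hl : l ∉ S) :
    (C.ρ (C.t l) - 1) * C.dd zs (insert l S) μ +
      (C.ρ (μ l) - 1) * C.ρ (C.t l) * (C.dd zs (insert l S) μ + C.dd zs S μ) ∈
      C.K (zs.length + 1) (C.wt zs (insert l S) c) := by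
  have hY := hS (mem_insert_self l S)
  have h1 := ruleA (zs := zs) hS h l
  have hne : l ≠ C.y0 := fun e => C.hy (e ▸ hY)
  have e1 : lam S (fun T => (C.ρ (pt C.t μ T l) - 1) * cD C.ρ C.y0 (pt C.t μ T) zs) =
      (C.ρ (C.t l) - 1) * C.dd zs S μ := by
    rw [dd, ← lam_mul_left]
    exact lam_congr fun T hT => by rw [pt_not hl hT]
  rw [if_neg hne, sub_zero, eps_of_mem hY, zero_add, lam_insert hl, e1] at h1
  simp only [pt_ins] at h1
  rw [lam_mul_left] at h1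
  refine mem_eq h1 ?_
  simp only [dd, lam_insert hl, map_mul]
  noncomm_ring

theorem B2 {l : ι} (hS : insert l S ⊆ C.Y) (h : C.ok μ c) (hl : l ∉ S) :
    (C.ρ (C.t l) * C.gg zs (insert l S) μ - C.gg zs (insert l S) μ * C.ρ (C.t l)) +
      ((C.ρ (μ l) - 1) * C.ρ (C.t l) * (C.gg zs (insert l S) μ + C.gg zs S μ) -
        (C.gg zs (insert l S) μ + C.gg zs S μ) * ((C.ρ (μ l) - 1) * C.ρ (C.t l))) ∈
      C.K (zs.length + 1) (C.wt zs (insert l S) c) := by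
  have hY := hS (mem_insert_self l S)
  have h1 := ruleB (zs := zs) hS h l
  have e1 : lam S (fun T => C.ρ (pt C.t μ T l) * (C.ρ (cG C.y0 (pt C.t μ T) zs) - 1) -
      (C.ρ (cG C.y0 (pt C.t μ T) zs) - 1) * C.ρ (pt C.t μ T l)) =
      C.ρ (C.t l) * C.gg zs S μ - C.gg zs S μ * C.ρ (C.t l) := by
    rw [gg, ← lam_mul_left, ← lam_mul_right, ← lam_sub]
    exact lam_congr fun T hT => by rw [pt_not hl hT]
  rw [eps_of_mem hY, zero_add, lam_insert hl, e1] at h1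
  simp only [pt_ins] at h1
  rw [lam_sub, lam_mul_left, lam_mul_right] at h1
  refine mem_eq h1 ?_
  simp only [gg, lam_insert hl, map_mul]
  noncomm_ring

/-- Adjoining a new difference in a free reserved letter. -/
theorem ok_update (h : C.ok μ c) {ν : H} (hν : ν ∈ C.M) {k : ℕ} (hk : C.ρ ν - 1 ∈ C.I k)
    (l : ι) : C.ok (Function.update μ l ν) (Function.update c l k) := by
  intro z
  by_cases e : z = l
  · subst e; simpa using ⟨hν, hk⟩
  · simpa [Function.update_of_ne e] using h z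

theorem pt_update {l : ι} (hl : l ∉ S) (ν : H) {T : Finset ι} (hT : T ⊆ S) :
    pt C.t (Function.update μ l ν) T = pt C.t μ T := by
  funext z
  unfold pt
  split_ifs with hz
  · rw [Function.update_of_ne fun e : z = l => hl (e ▸ hT hz)]
  · rfl

theorem dd_update {l : ι} (hl : l ∉ S) (ν : H) :
    C.dd zs S (Function.update μ l ν) = C.dd zs S μ :=
  lam_congr fun T hT => by rw [pt_update hl ν hT]

theorem gg_update {l : ι} (hl : l ∉ S) (ν : H) :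
    C.gg zs S (Function.update μ l ν) = C.gg zs S μ :=
  lam_congr fun T hT => by rw [pt_update hl ν hT]

theorem wt_insert {l : ι} (hl : l ∉ S) : C.wt zs (insert l S) c = C.wt zs S c + c l := by
  unfold wt; rw [sum_insert hl]; ring

theorem wt_update {l : ι} (hl : l ∉ S) (k : ℕ) :
    C.wt zs (insert l S) (Function.update c l k) = C.wt zs S c + k := by
  rw [wt_insert hl, Function.update_self]
  unfold wt
  rw [sum_update_of_notMem hl]

end Ctx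

end Pool.Agent.MP_3312ae_al.HR.E
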