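import Pool.Agent.MP_3312ae_al.HR.E.Word3

/-! Word lemma, part 4: words in the letters `ρ ν - 1`, normal forms. -/

set_option autoImplicit false
set_option linter.unusedSectionVars false

namespace Pool.Agent.MP_3312ae_al.HR.E

open Finset
open scoped commutatorElement

namespace Ctx

variable {H R ι : Type} [Group H] [Finite H] [Ring R] [DecidableEq ι] (C : Ctx H R ι)

/-- Words of length `r` and weight `c` in the letters `ρ ν - 1`. -/
inductive PW : ℕ → ℕ → R → Prop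
  | nil : PW 0 0 1
  | snoc {r c k : ℕ} {π : R} {ν : H} : PW r c π → ν ∈ C.M → C.ρ ν - 1 ∈ C.I k →
      PW (r + 1) (c + k) (π * (C.ρ ν - 1))

/-- A word of `PW` followed by a word in the letters `ρ (t z) - 1`. -/
inductive NW : ℕ → ℕ → R → Prop
  | base {r c : ℕ} {π : R} : C.PW r c π → NW r c π
  | snoc {r a : ℕ} {x : R} (z : ι) : NW r a x → NW r (a + C.eps z) (x * (C.ρ (C.t z) - 1))

def PF (r c : ℕ) : AddSubgroup R :=
  AddSubgroup.closure {π | ∃ r' c', r ≤ r' ∧ c ≤ c' ∧ C.PW r' c' π}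

def NF (r a : ℕ) : AddSubgroup R :=
  AddSubgroup.closure {x | ∃ r' a', r ≤ r' ∧ a ≤ a' ∧ C.NW r' a' x}

variable {C}

theorem PW.I {r c : ℕ} {π : R} (h : C.PW r c π) : π ∈ C.I c := by
  induction h with
  | nil => exact I_one
  | snoc _ _ hk ih => exact I_mul ih hk le_rfl

theorem PW.mm {r c : ℕ} {π : R} (h : C.PW r c π) : π ∈ C.mm r := by
  induction h with
  | nil => exact Fil.one
  | snoc _ hν _ ih => exact mm_mul ih (mM hν) le_rfl

theorem NW.I {r a : ℕ} {x : R} (h : C.NW r a x) : x ∈ C.I a := by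
  induction h with
  | base h => exact h.I
  | snoc z _ ih => exact I_mul ih (tI z) le_rfl

theorem NW.mm {r a : ℕ} {x : R} (h : C.NW r a x) : x ∈ C.mm r := by
  induction h with
  | base h => exact h.mm
  | snoc z _ ih => exact mm_mul ih (mm0 (tI z)) le_rfl

theorem PW.PF {r c r' c' : ℕ} {π : R} (h : C.PW r' c' π) (hr : r ≤ r') (hc : c ≤ c') :
    π ∈ C.PF r c := AddSubgroup.subset_closure ⟨r', c', hr, hc, h⟩

theorem NW.NF {r a r' a' : ℕ} {x : R} (h : C.NW r' a' x) (hr : r ≤ r') (ha : a ≤ a') :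
    x ∈ C.NF r a := AddSubgroup.subset_closure ⟨r', a', hr, ha, h⟩

theorem PW.one {ν : H} {k : ℕ} (hν : ν ∈ C.M) (hk : C.ρ ν - 1 ∈ C.I k) :
    C.PW 1 k (C.ρ ν - 1) := by
  simpa using PW.snoc PW.nil hν hk

theorem PF_snoc {r c k r' c' : ℕ} {π : R} {ν : H} (h : π ∈ C.PF r c) (hν : ν ∈ C.M)
    (hk : C.ρ ν - 1 ∈ C.I k) (hr : r' ≤ r + 1) (hc : c' ≤ c + k) :
    π * (C.ρ ν - 1) ∈ C.PF r' c' := by
  refine closure_mul h ?_
  rintro y ⟨r₁, c₁, h1, h2, h3⟩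
  exact (h3.snoc hν hk).PF (by omega) (by omega)

theorem conj_sub (ρ : H →* R) (h ν : H) :
    ρ h * (ρ ν - 1) * ρ h⁻¹ = ρ (h * ν * h⁻¹) - 1 := by
  rw [mul_sub, sub_mul, mul_one, ← map_mul, ← map_mul, ← map_mul, mul_inv_cancel, map_one]

theorem conj_mul (ρ : H →* R) (h : H) (x y : R) :
    ρ h * (x * y) * ρ h⁻¹ = (ρ h * x * ρ h⁻¹) * (ρ h * y * ρ h⁻¹) := by
  have e : ρ h⁻¹ * ρ h = 1 := by rw [← map_mul, inv_mul_cancel, map_one]
  calc ρ h * (x * y) * ρ h⁻¹ = ρ h * x * (ρ h⁻¹ * ρ h) * y * ρ h⁻¹ := by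
        rw [e]; simp only [mul_assoc, one_mul]
    _ = _ := by simp only [mul_assoc]

theorem conj_I {h ν : H} {k : ℕ} (hh : C.ρ h ∈ C.I 0) (hk : C.ρ ν - 1 ∈ C.I k) :
    C.ρ (h * ν * h⁻¹) - 1 ∈ C.I k := by
  rw [← conj_sub]
  exact I_mul (I_mul hh hk (le_of_eq (zero_add _).symm)) (inv_mem0 hh) le_rfl

theorem PW.conj {h : H} (hh : C.ρ h ∈ C.I 0) {r c : ℕ} {π : R} (hπ : C.PW r c π) :
    C.PW r c (C.ρ h * π * C.ρ h⁻¹) := by
  induction hπ with
  | nil => rw [mul_one, ← map_mul, mul_inv_cancel, map_one]; exact PW.nil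
  | snoc _ hν hk ih =>
    rw [conj_mul, conj_sub]
    exact ih.snoc (C.hM.conj_mem _ hν h) (conj_I hh hk)

theorem PW.diff {h : H} {e : ℕ} (hh : C.ρ h - 1 ∈ C.I e) {r c : ℕ} {π : R} (hπ : C.PW r c π) :
    C.ρ h * π * C.ρ h⁻¹ - π ∈ C.PF r (c + e) := by
  have h0 : C.ρ h ∈ C.I 0 := mem0_of_sub hh
  induction hπ with
  | nil =>
    rw [mul_one, ← map_mul, mul_inv_cancel, map_one, sub_self]; exact AddSubgroup.zero_mem _
  | @snoc r c k π ν hπ hν hk ih =>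
    have hq : ⁅h, ν⁆ ∈ C.M := by
      rw [commutatorElement_def]
      exact C.M.mul_mem (C.hM.conj_mem _ hν h) (C.M.inv_mem hν)
    have hqI : C.ρ ⁅h, ν⁆ - 1 ∈ C.I (e + k) := comm_sub hh hk
    have e1 : C.ρ (h * ν * h⁻¹) = C.ρ ⁅h, ν⁆ * C.ρ ν := by
      rw [← map_mul, commutatorElement_def]; congr 1; group
    have h1 := PF_snoc ih (C.hM.conj_mem _ hν h) (conj_I h0 hk) (r' := r + 1) (c' := c + k + e)
      le_rfl (by omega)
    have h2 := ((hπ.snoc hq hqI).snoc hν hk).PF (r := r + 1) (c := c + k + e) (by omega) (by omega)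
    have h3 := (hπ.snoc hq hqI).PF (r := r + 1) (c := c + k + e) (by omega) (by omega)
    refine mem_eq (AddSubgroup.add_mem _ h1 (AddSubgroup.add_mem _ h2 h3)) ?_
    rw [conj_mul, conj_sub, e1]
    noncomm_ring

theorem PW.append {r c r' c' : ℕ} {π π' : R} (h : C.PW r c π) (h' : C.PW r' c' π') :
    C.PW (r + r') (c + c') (π * π') := by
  induction h' with
  | nil => simpa using h
  | snoc _ hν hk ih => simpa only [← add_assoc, ← mul_assoc] using ih.snoc hν hk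

theorem NF_t {r a b : ℕ} {x : R} (h : x ∈ C.NF r a) (z : ι) (hb : b ≤ a + C.eps z) :
    x * (C.ρ (C.t z) - 1) ∈ C.NF r b := by
  refine closure_mul h ?_
  rintro y ⟨r₁, c₁, h1, h2, h3⟩
  exact (h3.snoc z).NF h1 (by omega)

theorem NW.mul_PW {r a : ℕ} {x : R} (h : C.NW r a x) : ∀ {r' c : ℕ} {π : R}, C.PW r' c π →
    x * π ∈ C.NF (r + r') (a + c) := by
  induction h with
  | base h => intro r' c π h'; exact (NW.base (h.append h')).NF le_rfl le_rfl
  | @snoc a x z _ ih =>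
    intro r' c π h'
    have h1 := NF_t (ih (h'.conj (tI0 z))) z (b := a + C.eps z + c) (by omega)
    have h2 : x * (C.ρ (C.t z) * π * C.ρ (C.t z)⁻¹ - π) ∈ C.NF (r + r') (a + C.eps z + c) := by
      refine mul_closure (h'.diff (tI z)) ?_
      rintro y ⟨r₁, c₁, h1, h2, h3⟩
      refine AddSubgroup.closure_mono ?_ (ih h3)
      rintro y ⟨r₂, c₂, h4, h5, h6⟩
      exact ⟨r₂, c₂, by omega, by omega, h6⟩
    refine mem_eq (AddSubgroup.add_mem _ h1 h2) ?_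
    have e : C.ρ (C.t z) * π * C.ρ (C.t z)⁻¹ * C.ρ (C.t z) = C.ρ (C.t z) * π := by
      rw [mul_assoc, ← map_mul, inv_mul_cancel, map_one, mul_one]
    calc _ = x * (C.ρ (C.t z) * π * C.ρ (C.t z)⁻¹ * C.ρ (C.t z)) - x * π := by noncomm_ring
      _ = _ := by rw [e]; noncomm_ring

theorem NF_p {r a k r' b : ℕ} {x : R} (h : x ∈ C.NF r a) {ν : H} (hν : ν ∈ C.M)
    (hk : C.ρ ν - 1 ∈ C.I k) (hr : r' ≤ r + 1) (hb : b ≤ a + k) :
    x * (C.ρ ν - 1) ∈ C.NF r' b := by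
  refine closure_mul h ?_
  rintro y ⟨r₁, c₁, h1, h2, h3⟩
  refine AddSubgroup.closure_mono ?_ (h3.mul_PW (PW.one hν hk))
  rintro y ⟨r₂, c₂, h4, h5, h6⟩
  exact ⟨r₂, c₂, by omega, by omega, h6⟩

theorem word_NF (L : List (ι ⊕ C.M)) :
    (L.map (lval C.ρ C.M C.t)).prod ∈ C.NF 0 (L.map C.wI).sum := by
  induction L using List.reverseRecOn with
  | nil => exact (NW.base PW.nil).NF le_rfl le_rfl
  | append_singleton L l ih =>
    rw [List.map_append, List.map_append, List.prod_append, List.sum_append]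
    rcases l with z | ν
    · simpa [lval, wI] using NF_t ih z le_rfl
    · simpa [lval, wI] using NF_p ih ν.2 (mI0 ν.2) (Nat.zero_le _) le_rfl

theorem I_NF {a : ℕ} {x : R} (h : x ∈ C.I a) : x ∈ C.NF 0 a := by
  refine (AddSubgroup.closure_le _).2 ?_ h
  rintro _ ⟨L, hL, rfl⟩
  refine AddSubgroup.closure_mono ?_ (word_NF L)
  rintro y ⟨r₂, c₂, h4, h5, h6⟩
  exact ⟨r₂, c₂, h4, by omega, h6⟩

/-- Moving a reserved letter to the far left. -/
theorem moveY {i b : ℕ} {x : R} (hx : x ∈ C.I b) {y : ι} (hy : y ∈ insert C.y0 C.Y)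
    (hP : ∀ r c π, C.PW (r + 1) c π → π * x ∈ C.YY i (c + b)) {r c : ℕ} {π : R}
    (hπ : C.PW r c π) : π * (C.ρ (C.t y) - 1) * x ∈ C.YY i (c + b) := by
  rcases r with _ | r
  · cases hπ
    rw [one_mul]
    exact YY_y hy hx (by omega)
  · have h1 := hπ.conj (h := (C.t y)⁻¹) (tI0' y)
    have h2 := YY_y (i := i) hy (I_mul h1.I hx le_rfl) le_rfl
    refine mem_eq (AddSubgroup.add_mem _ h2
      (AddSubgroup.sub_mem _ (hP _ _ _ h1) (hP _ _ _ hπ))) ?_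
    have e : C.ρ (C.t y) * (C.ρ (C.t y)⁻¹ * π * C.ρ (C.t y)⁻¹⁻¹) = π * C.ρ (C.t y) := by
      rw [inv_inv, ← mul_assoc, ← mul_assoc, ← map_mul, mul_inv_cancel, map_one, one_mul]
    calc _ = C.ρ (C.t y) * (C.ρ (C.t y)⁻¹ * π * C.ρ (C.t y)⁻¹⁻¹) * x - π * x := by noncomm_ring
      _ = _ := by rw [e]; noncomm_ring

end Ctx

end Pool.Agent.MP_3312ae_al.HR.E
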