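import Pool.Agent.MP_3312ae_al.HR.E.Word4

/-! Word lemma, part 5: the two rewriting claims and the inductive step. -/

set_option autoImplicit false
set_option linter.unusedSectionVars false

namespace Pool.Agent.MP_3312ae_al.HR.E

open Finset

theorem down_ind {ι : Type} [DecidableEq ι] (Y : Finset ι) (P : Finset ι → Prop)
    (h : ∀ S ⊆ Y, (∀ l ∈ Y, l ∉ S → P (insert l S)) → P S) : ∀ S ⊆ Y, P S := by
  suffices H : ∀ n, ∀ S ⊆ Y, Y.card ≤ S.card + n → P S from
    fun S hS => H Y.card S hS (by omega)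
  intro n
  induction n with
  | zero =>
    intro S hS hc
    refine h S hS fun l hl hl' => absurd hl (eq_of_subset_of_card_le hS hc ▸ hl')
  | succ n ih =>
    intro S hS hc
    refine h S hS fun l hl hl' => ih _ (insert_subset hl hS) ?_
    rw [card_insert_of_notMem hl']; omega

theorem down_nat (j : ℕ) (P : ℕ → Prop) (h0 : ∀ r, j ≤ r → P r) (h : ∀ r, P (r + 1) → P r)
    (r : ℕ) : P r := by
  suffices H : ∀ n r, j ≤ r + n → P r from H j r (by omega)
  intro n
  induction n with
  | zero => exact fun r hr => h0 r hr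
  | succ n ih => exact fun r hr => h r (ih _ (by omega))

namespace Ctx

variable {H R ι : Type} [Group H] [Finite H] [Ring R] [DecidableEq ι] {C : Ctx H R ι}

theorem card_of_full {S : Finset ι} (h : ¬ ∃ l ∈ C.Y, l ∉ S) : C.Y.card ≤ S.card :=
  card_le_card fun l hl => by
    by_contra hn
    exact h ⟨l, hl, hn⟩

theorem ne_y0 {l : ι} (h : l ∈ C.Y) : l ≠ C.y0 := fun e => C.hy (e ▸ h)

theorem c1a (zs : List ι) : ∀ S ⊆ C.Y, ∀ μ c, C.ok μ c → ∀ r a π, C.PW r a π →
    π * C.gg zs S μ ∈ C.YY zs.length (a + C.wt zs S c) := by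
  refine down_ind C.Y _ fun S hS IH μ c h r a π hπ => ?_
  induction hπ with
  | nil =>
    have h1 := A1 (zs := zs) hS h (z := C.y0) fun e => C.hy (hS e)
    rw [if_pos rfl, eps_y0] at h1
    have h2 := YY_y (i := zs.length) (mem_insert_self C.y0 C.Y) (dI (zs := zs) hS h)
      (b := 0 + C.wt zs S c) (by omega)
    exact mem_eq (AddSubgroup.sub_mem _ h2 (YY_K h1 le_rfl)) (by noncomm_ring)
  | @snoc r a k π ν hπ hν hk ih =>
    by_cases hl : ∃ l ∈ C.Y, l ∉ S
    · obtain ⟨l, hl, hl'⟩ := hl
      have h' := ok_update h hν hk l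
      have hS' := insert_subset hl hS
      have IH' := IH l hl hl' _ _ h'
      have X2 := B2 (zs := zs) hS' h' hl'
      have hg := gI (zs := zs) hS' h'
      rw [wt_update hl'] at IH' X2 hg
      rw [gg_update hl', Function.update_self] at X2
      have X1 := B1 (zs := zs) hS h hl'
      have hπ' := hπ.snoc hν hk
      have hy := mem_insert_of_mem (b := C.y0) hl
      set g := C.gg zs S μ
      set g' := C.gg zs (insert l S) (Function.update μ l ν)
      set b := C.wt zs S c
      have hpt : (C.ρ ν - 1) * C.ρ (C.t l) ∈ C.I k := I_mul hk (tI0 l) le_rfl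
      have t1 := YY_right ih hpt (b := a + k + b) (by omega)
      have t2 := YY_K (K_left hπ.I X2 le_rfl) (b := a + k + b) (by omega)
      have t3 := YY_K (K_left hπ'.I X1 le_rfl) (b := a + k + b) (by omega)
      have t4 := YY_mono (moveY hg hy (fun r c π h => IH' _ c π h) hπ) (b := a + k + b) (by omega)
      have t5 := YY_mono (IH' _ _ _ hπ) (b := a + k + b) (by omega)
      have t6 := YY_right t5 (tI0 l) le_rfl
      have t7 := YY_mono (moveY hg hy (fun r c π h => IH' _ c π h) hπ') (b := a + k + b)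
        (by omega)
      have t8 := YY_mono (IH' _ _ _ hπ') (b := a + k + b) (by omega)
      have t9 := YY_right t5 hpt (b := a + k + b) (by omega)
      have tt : π * (C.ρ ν - 1) * g * C.ρ (C.t l) ∈ C.YY zs.length (a + k + b) := by
        refine mem_eq (AddSubgroup.add_mem _ (AddSubgroup.sub_mem _ (AddSubgroup.sub_mem _
          (AddSubgroup.add_mem _ (AddSubgroup.sub_mem _ (AddSubgroup.sub_mem _
          (AddSubgroup.sub_mem _ (AddSubgroup.add_mem _ t1 t2) t3) t4) t5) t6) t7) t8) t9) ?_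
        noncomm_ring
      refine mem_eq (YY_right tt (tI0' l) le_rfl) ?_
      rw [mul_assoc, ← map_mul, mul_inv_cancel, map_one, mul_one]
    · have := card_of_full hl
      exact YY_mm (mm_mul (hπ.snoc hν hk).mm (gM hS h) (by omega))

theorem c2a (zs : List ι) : ∀ S ⊆ C.Y, ∀ μ c, C.ok μ c → ∀ r a π, C.PW (r + 1) a π →
    π * C.dd zs S μ ∈ C.YY zs.length (a + C.wt zs S c) := by
  refine down_ind C.Y _ fun S hS IH μ c h r a π hπ' => ?_
  by_cases hl : ∃ l ∈ C.Y, l ∉ S
  · obtain ⟨l, hl, hl'⟩ := hl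
    cases hπ' with
    | @snoc _ a k π ν hπ hν hk =>
      have h' := ok_update h hν hk l
      have hS' := insert_subset hl hS
      have IH' := IH l hl hl' _ _ h'
      have X2 := A2 (zs := zs) hS' h' hl'
      have hd := dI (zs := zs) hS' h'
      rw [wt_update hl'] at IH' X2 hd
      rw [dd_update hl', Function.update_self] at X2
      have X1 := A1 (zs := zs) hS h hl'
      rw [if_neg (ne_y0 hl)] at X1
      have hπ' := hπ.snoc hν hk
      have hy := mem_insert_of_mem (b := C.y0) hl
      set d := C.dd zs S μ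
      set d' := C.dd zs (insert l S) (Function.update μ l ν)
      set b := C.wt zs S c
      have t2 := YY_K (K_left hπ.I X2 le_rfl) (b := a + k + b) (by omega)
      have t3 := YY_K (K_left hπ'.I X1 le_rfl) (b := a + k + b) (by omega)
      have t4 := YY_mono (moveY hd hy IH' hπ) (b := a + k + b) (by omega)
      have t7 := YY_mono (moveY hd hy IH' hπ') (b := a + k + b) (by omega)
      have t8 := YY_mono (IH' _ _ _ hπ') (b := a + k + b) (by omega)
      refine mem_eq (AddSubgroup.sub_mem _ (AddSubgroup.sub_mem _ (AddSubgroup.sub_mem _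
        (AddSubgroup.sub_mem _ t2 t3) t4) t7) t8) ?_
      noncomm_ring
  · have := card_of_full hl
    exact YY_mm (mm_mul hπ'.mm (dM hS h) (by omega))

theorem NF_mm {r a : ℕ} {x : R} (h : x ∈ C.NF r a) : x ∈ C.mm r := by
  refine (AddSubgroup.closure_le _).2 ?_ h
  rintro y ⟨r₁, c₁, h1, _, h3⟩
  exact Fil.mono h1 h3.mm

theorem NF_pt {r r' a k : ℕ} {x : R} (h : C.NW r' a x) (hr : r ≤ r') {ν : H} (hν : ν ∈ C.M)
    (hk : C.ρ ν - 1 ∈ C.I k) (z : ι) :
    x * (C.ρ ν - 1) * C.ρ (C.t z) ∈ C.NF (r + 1) (a + k) := by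
  have h1 := NF_p (h.NF hr le_rfl) hν hk le_rfl le_rfl
  exact mem_eq (AddSubgroup.add_mem _ (NF_t h1 z (Nat.le_add_right _ _)) h1) (by noncomm_ring)

theorem c1b (zs : List ι) (r : ℕ) : ∀ a x, x ∈ C.NF r a → ∀ S ⊆ C.Y, ∀ μ c, C.ok μ c →
    x * C.gg zs S μ ∈ C.YY zs.length (a + C.wt zs S c) := by
  refine down_nat (C.Y.card + 1) (fun r => ∀ a x, x ∈ C.NF r a → ∀ S ⊆ C.Y, ∀ μ c, C.ok μ c →
    x * C.gg zs S μ ∈ C.YY zs.length (a + C.wt zs S c)) ?_ ?_ r
  · intro r hr a x hx S hS μ c h
    exact YY_mm (mm_mul (NF_mm hx) (gM hS h) (by omega))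
  · intro r IH a x hx S hS μ c h
    refine closure_mul hx ?_
    rintro y ⟨r', a', h1, h2, h3⟩
    refine YY_mono ?_ (show a + C.wt zs S c ≤ a' + C.wt zs S c by omega)
    clear h2 hx
    induction h3 generalizing S with
    | base hπ => exact c1a zs S hS μ c h _ _ _ hπ
    | @snoc a x z hx ih =>
      have t1 := YY_right (ih S hS) (tI z) (b := a + C.eps z + C.wt zs S c) (by omega)
      by_cases hz : z ∈ S
      · obtain ⟨S', hz', rfl⟩ : ∃ S', z ∉ S' ∧ insert z S' = S :=
          ⟨S.erase z, notMem_erase z S, insert_erase hz⟩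
        have hS' : S' ⊆ C.Y := (subset_insert z S').trans hS
        have he := eps_of_mem (hS (mem_insert_self z S'))
        have hw := wt_insert (C := C) (zs := zs) (c := c) hz'
        have X2 := B2 (zs := zs) hS h hz'
        have hxp := NF_pt hx h1 (h z).1 (h z).2 z
        have hpt : (C.ρ (μ z) - 1) * C.ρ (C.t z) ∈ C.I (c z) := I_mul (h z).2 (tI0 z) le_rfl
        set B := a + C.eps z + C.wt zs (insert z S') c
        have t2 := YY_K (K_left hx.I X2 le_rfl) (b := B) (by omega)
        have t3 := YY_mono (IH _ _ hxp _ hS μ c h) (b := B) (by omega)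
        have t4 := YY_mono (IH _ _ hxp _ hS' μ c h) (b := B) (by omega)
        have t5 := YY_right (ih _ hS) hpt (b := B) (by omega)
        have t6 := YY_right (ih _ hS') hpt (b := B) (by omega)
        refine mem_eq (AddSubgroup.add_mem _ (AddSubgroup.add_mem _ (AddSubgroup.sub_mem _
          (AddSubgroup.sub_mem _ (AddSubgroup.add_mem _ t1 t2) t3) t4) t5) t6) ?_
        noncomm_ring
      · have t2 := YY_K (K_left hx.I (B1 (zs := zs) hS h hz) le_rfl)
          (b := a + C.eps z + C.wt zs S c) (by omega)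
        refine mem_eq (AddSubgroup.add_mem _ t1 t2) ?_
        noncomm_ring

theorem c2b (zs : List ι) (r : ℕ) : ∀ a x, x ∈ C.NF r a → 1 ≤ r + a → ∀ S ⊆ C.Y, ∀ μ c,
    C.ok μ c → x * C.dd zs S μ ∈ C.YY zs.length (a + C.wt zs S c) := by
  refine down_nat (C.Y.card + 1) (fun r => ∀ a x, x ∈ C.NF r a → 1 ≤ r + a → ∀ S ⊆ C.Y, ∀ μ c,
    C.ok μ c → x * C.dd zs S μ ∈ C.YY zs.length (a + C.wt zs S c)) ?_ ?_ r
  · intro r hr a x hx _ S hS μ c h
    exact YY_mm (mm_mul (NF_mm hx) (dM hS h) (by omega))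
  · intro r IH a x hx hra S hS μ c h
    refine closure_mul hx ?_
    rintro y ⟨r', a', h1, h2, h3⟩
    refine YY_mono ?_ (show a + C.wt zs S c ≤ a' + C.wt zs S c by omega)
    cases h3 with
    | base hπ =>
      rcases r' with _ | r'
      · cases hπ; omega
      · exact c2a zs S hS μ c h _ _ _ hπ
    | @snoc a' x z hx =>
      by_cases hz : z ∈ S
      · obtain ⟨S', hz', rfl⟩ : ∃ S', z ∉ S' ∧ insert z S' = S :=
          ⟨S.erase z, notMem_erase z S, insert_erase hz⟩
        have hS' : S' ⊆ C.Y := (subset_insert z S').trans hS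
        have he := eps_of_mem (hS (mem_insert_self z S'))
        have hw := wt_insert (C := C) (zs := zs) (c := c) hz'
        have X2 := A2 (zs := zs) hS h hz'
        have hxp := NF_pt hx h1 (h z).1 (h z).2 z
        set B := a' + C.eps z + C.wt zs (insert z S') c
        have t2 := YY_K (K_left hx.I X2 le_rfl) (b := B) (by omega)
        have t3 := YY_mono (IH _ _ hxp (by omega) _ hS μ c h) (b := B) (by omega)
        have t4 := YY_mono (IH _ _ hxp (by omega) _ hS' μ c h) (b := B) (by omega)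
        refine mem_eq (AddSubgroup.sub_mem _ (AddSubgroup.sub_mem _ t2 t3) t4) ?_
        noncomm_ring
      · have t2 := YY_K (K_left hx.I (A1 (zs := zs) hS h hz) le_rfl)
          (b := a' + C.eps z + C.wt zs S c) (by omega)
        by_cases e : z = C.y0
        · rw [if_pos e] at t2
          have he : C.eps z = 0 := e ▸ eps_y0
          have t3 := YY_mono (c1b zs r' _ _ (hx.NF le_rfl le_rfl) S hS μ c h)
            (b := a' + C.eps z + C.wt zs S c) (by omega)
          refine mem_eq (AddSubgroup.add_mem _ t2 t3) ?_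
          noncomm_ring
        · rw [if_neg e] at t2
          refine mem_eq t2 ?_
          noncomm_ring

theorem step {i a : ℕ} {x y : R} (hx : x ∈ C.I 1) (hy : y ∈ C.K i a) :
    x * y ∈ C.YY i (a + 1) := by
  refine mul_closure hy ?_
  rintro y (hy | ⟨α, β, a₁, a₂, zs, S, μ, c, h1, h2, rfl, h4, h5, h6, h7⟩)
  · exact YY_mm (mm_mul (mm0 hx) hy (by omega))
  · have h8 := I_NF (I_mul hx h1 le_rfl)
    rcases h7 with rfl | rfl
    · exact mem_eq (YY_right (c2b zs 0 _ _ h8 (by omega) S h4 μ c h5) h2 (by omega))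
        (by simp only [mul_assoc])
    · exact mem_eq (YY_right (c1b zs 0 _ _ h8 S h4 μ c h5) h2 (by omega))
        (by simp only [mul_assoc])

end Ctx

end Pool.Agent.MP_3312ae_al.HR.E
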