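import Pool.Agent.MP_3312ae_al.HR.E.Word5

/-! Word lemma, part 6: the main induction, the theorem and the corollary for eight letters. -/

set_option autoImplicit false
set_option linter.unusedSectionVars false

namespace Pool.Agent.MP_3312ae_al.HR.E

open Finset

variable {H R ι : Type} [Group H] [Finite H] [Ring R] [DecidableEq ι]

/-- A word without `M`-letters is a word in the letters `ρ (t z) - 1`. -/
theorem word_T {ρ : H →* R} {M : Subgroup H} {t : ι → H} (L : List (ι ⊕ M))
    (h : (L.map (Sum.elim (fun _ => 0) fun _ => 1 : ι ⊕ M → ℕ)).sum = 0) :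
    ∃ L' : List ι, L'.length = L.length ∧
      (L.map (lval ρ M t)).prod = (L'.map fun z => ρ (t z) - 1).prod := by
  induction L with
  | nil => exact ⟨[], rfl, rfl⟩
  | cons l L ih =>
    rcases l with z | ν
    · obtain ⟨L', h1, h2⟩ := ih (by simpa using h)
      exact ⟨z :: L', by simp [h1], by simp [lval, h2]⟩
    · simp at h

/-- Long words contain many `M`-letters or vanish. -/
theorem long_word {ρ : H →* R} {M : Subgroup H} {t : ι → H} {N : ℕ}
    (hN : ∀ L : List ι, L.length = N → (L.map fun z => ρ (t z) - 1).prod = 0) (r : ℕ) :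
    ∀ L : List (ι ⊕ M), r * N ≤ L.length →
      (L.map (lval ρ M t)).prod ∈ Fil (lval ρ M t) (Sum.elim (fun _ => 0) fun _ => 1) r := by
  induction r with
  | zero => exact fun L _ => Fil.word L (Nat.zero_le _)
  | succ r ih =>
    intro L hL
    have h1 : N ≤ L.length := le_trans (by nlinarith) hL
    rw [← List.take_append_drop N L, List.map_append, List.prod_append]
    by_cases h : ((L.take N).map (Sum.elim (fun _ => 0) fun _ => 1 : ι ⊕ M → ℕ)).sum = 0
    · obtain ⟨L', h2, h3⟩ := word_T (ρ := ρ) (t := t) _ h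
      rw [h3, hN L' (by rw [h2, List.length_take]; omega), zero_mul]
      exact AddSubgroup.zero_mem _
    · refine Fil.mul' (Fil.word _ (Nat.one_le_iff_ne_zero.2 h)) (ih _ ?_) (by omega)
      rw [List.length_drop]
      have : (r + 1) * N = r * N + N := by ring
      omega

namespace Ctx

variable {C : Ctx H R ι}

theorem I_succ {N : ℕ}
    (hN : ∀ L : List ι, L.length = N → (L.map fun z => C.ρ (C.t z) - 1).prod = 0) {i : ℕ}
    (ih : ∀ x ∈ C.I i, x ∈ C.K i i) : ∀ x ∈ C.I (i + 1), x ∈ C.K (i + 1) (i + 1) := by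
  have key : ∀ n, ∀ ω ∈ Fil (lval C.ρ C.M C.t) (fun _ => 1) n, ∀ β ∈ C.I (i + 1),
      ω * β ∈ C.K (i + 1) (i + 1) := by
    refine down_nat ((C.Y.card + 1) * N) _ ?_ ?_
    · intro n hn ω hω β hβ
      refine closure_mul hω ?_
      rintro _ ⟨L, hL, rfl⟩
      exact K_mm (mm_mul (long_word hN _ L (hn.trans (by simpa using hL))) (mm0 hβ) le_rfl)
    · intro n IH ω hω β hβ
      refine mul_closure hβ ?_
      rintro _ ⟨L, hL, rfl⟩
      rcases L with _ | ⟨l, L⟩
      · simp at hL
      · rw [List.map_cons, List.sum_cons] at hL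
        rw [List.map_cons, List.prod_cons]
        have hl : ω * lval C.ρ C.M C.t l ∈ Fil (lval C.ρ C.M C.t) (fun _ => 1) (n + 1) :=
          Fil.mul hω (Fil.letter l)
        by_cases h0 : C.wI l = 0
        · rw [← mul_assoc]
          exact IH _ hl _ (Fil.word L (by omega))
        · have h1 : C.wI l ≤ 1 := by
            rcases l with z | ν
            · exact eps_le z
            · exact Nat.zero_le _
          have h2 : lval C.ρ C.M C.t l ∈ C.I 1 :=
            Fil.mono (Nat.one_le_iff_ne_zero.2 h0) (Fil.letter l)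
          refine mul_closure (step h2 (ih _ (Fil.word L (by omega)))) ?_
          rintro y (hy | ⟨y, _, β, hβ, rfl⟩)
          · exact K_left (Fil.zero_of _ hω) hy (by omega)
          · rw [← mul_assoc]
            exact IH _ (Fil.mul hω (Fil.letter (Sum.inl y))) _ hβ
  intro x hx
  simpa using key 0 1 Fil.one x hx

theorem I_le_K {N : ℕ}
    (hN : ∀ L : List ι, L.length = N → (L.map fun z => C.ρ (C.t z) - 1).prod = 0) (i : ℕ) :
    ∀ x ∈ C.I i, x ∈ C.K i i := by
  induction i with
  | zero =>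
    intro x hx
    have h : C.ok (fun _ => 1) (fun _ => 0) := fun _ =>
      ⟨C.M.one_mem, by rw [map_one, sub_self]; exact AddSubgroup.zero_mem _⟩
    have := K_left hx (K_d (zs := []) (empty_subset C.Y) h) (Nat.zero_le _)
    simpa [dd, cD] using this
  | succ i ih => exact I_succ hN ih

/-- The word lemma. -/
theorem word_lemma (C : Ctx H R ι) {N m : ℕ}
    (hN : ∀ L : List ι, L.length = N → (L.map fun z => C.ρ (C.t z) - 1).prod = 0)
    (hm : ∀ u : ι → H, (∀ i, u i * (C.t i)⁻¹ ∈ C.M) → ∀ zs : List ι, zs.length = m →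
      C.ρ (cG C.y0 u zs) = 1 ∧ cD C.ρ C.y0 u zs = 0) {x : R} (hx : x ∈ C.I m) :
    x ∈ C.mm (C.Y.card + 1) := by
  refine (AddSubgroup.closure_le _).2 ?_ (I_le_K hN m x hx)
  rintro y (hy | ⟨α, β, a₁, a₂, zs, S, μ, c, _, _, h3, _, h5, _, h7⟩)
  · exact hy
  · have hu : ∀ T i, pt C.t μ T i * (C.t i)⁻¹ ∈ C.M := fun T i => by
      unfold pt
      split_ifs
      · simpa using (h5 i).1
      · simp
    have e1 : C.dd zs S μ = 0 :=
      (lam_congr fun T _ => (hm _ (hu T) zs h3).2).trans (lam_zero S)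
    have e2 : C.gg zs S μ = 0 :=
      (lam_congr fun T _ => by rw [(hm _ (hu T) zs h3).1, sub_self]).trans (lam_zero S)
    rcases h7 with rfl | rfl
    · simp [e1]
    · simp [e2]

end Ctx

/-- Span of the words with at least `a` letters `ρ (t z) - 1`. -/
def TF (ρ : H →* R) (M : Subgroup H) (t : ι → H) (a : ℕ) : AddSubgroup R :=
  Fil (lval ρ M t) (Sum.elim (fun _ => 1) fun _ => 0) a

/-- Span of the words with at least `r` letters `ρ ν - 1`, `ν ∈ M`. -/
def MF (ρ : H →* R) (M : Subgroup H) (t : ι → H) (r : ℕ) : AddSubgroup R :=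
  Fil (lval ρ M t) (Sum.elim (fun _ => 0) fun _ => 1) r

theorem sum_split {Λ : Type} (w w₁ w₂ : Λ → ℕ) (h : ∀ l, w l ≤ w₁ l + w₂ l) (L : List Λ) :
    (L.map w).sum ≤ (L.map w₁).sum + (L.map w₂).sum := by
  induction L with
  | nil => simp
  | cons l L ih => have := h l; simp only [List.map_cons, List.sum_cons]; omega

/-- The corollary for eight letters: a word with `2 m` letters `ρ (t z) - 1` is a combination of
words with four letters `ρ ν - 1`. -/
theorem word_eight (ρ : H →* R) (M : Subgroup H) (hM : M.Normal) (t : Fin 8 → H) {N m : ℕ}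
    (hN : ∀ L : List (Fin 8), L.length = N → (L.map fun z => ρ (t z) - 1).prod = 0)
    (hm : ∀ (y0 : Fin 8) (u : Fin 8 → H), (∀ i, u i * (t i)⁻¹ ∈ M) → ∀ zs : List (Fin 8),
      zs.length = m → ρ (cG y0 u zs) = 1 ∧ cD ρ y0 u zs = 0) {x : R}
    (hx : x ∈ TF ρ M t (2 * m)) : x ∈ MF ρ M t 4 := by
  refine (AddSubgroup.closure_le _).2 ?_ hx
  rintro _ ⟨L, hL, rfl⟩
  let C₁ : Ctx H R (Fin 8) := ⟨ρ, M, hM, t, 0, {1, 2, 3}, by decide⟩
  let C₂ : Ctx H R (Fin 8) := ⟨ρ, M, hM, t, 4, {5, 6, 7}, by decide⟩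
  have h := sum_split (Sum.elim (fun _ => 1) fun _ => 0) C₁.wI C₂.wI (fun l => by
    rcases l with z | ν
    · show 1 ≤ (if z ∈ insert (0 : Fin 8) ({1, 2, 3} : Finset (Fin 8)) then 0 else 1) +
        (if z ∈ insert (4 : Fin 8) ({5, 6, 7} : Finset (Fin 8)) then 0 else 1)
      revert z; decide
    · exact Nat.zero_le _) L
  have h2 := hL.trans h
  by_cases h1 : m ≤ (L.map C₁.wI).sum
  · exact C₁.word_lemma hN (hm 0) (Fil.word L h1)
  · exact C₂.word_lemma hN (hm 4) (Fil.word L (by omega))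

end Pool.Agent.MP_3312ae_al.HR.E
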